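import Pool.Agent.TH646.CA.Comb

set_option autoImplicit false

open Finset Filter

namespace Pool.Agent.TH646.CA

open Pool.Agent.H661R3.OP (Rough)

theorem primes_lower : ∀ᶠ N : ℕ in atTop,
    (N : ℝ) / 2 ≤ (((Ioc N (3 * N)).filter Nat.Prime).card : ℝ) * Real.log (3 * N) := by
  have hlog : ∀ᶠ N : ℕ in atTop,
      Real.log (3 * N + 1) + 2 * Real.sqrt (3 * N) * Real.log (3 * N) ≤ (N : ℝ) / 10 := by
    have h1 : (fun x : ℝ => Real.log x) =o[atTop] (fun x : ℝ => x ^ (1 / 4 : ℝ)) :=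
      isLittleO_log_rpow_atTop (by norm_num)
    have h2 : ∀ᶠ x : ℝ in atTop, Real.log x ≤ x ^ (1 / 4 : ℝ) := by
      filter_upwards [h1.bound (by norm_num : (0 : ℝ) < 1), eventually_ge_atTop 1] with x hx hx1
      rw [one_mul, Real.norm_of_nonneg (Real.log_nonneg hx1),
        Real.norm_of_nonneg (by positivity)] at hx
      exact hx
    have ht : Tendsto (fun N : ℕ => (3 * (N : ℝ) + 1)) atTop atTop :=
      tendsto_atTop_add_const_right _ _
        ((tendsto_natCast_atTop_atTop).const_mul_atTop (by norm_num : (0 : ℝ) < 3))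
    have h3 := ht.eventually h2
    have h4 : ∀ᶠ x : ℝ in atTop, (100 : ℝ) ≤ x ^ (1 / 4 : ℝ) :=
      (tendsto_rpow_atTop (by norm_num : (0 : ℝ) < 1 / 4)).eventually_ge_atTop 100
    have h5 := ht.eventually h4
    filter_upwards [h3, h5, eventually_ge_atTop 1] with N hN hN2 hN3
    have hNr : (1 : ℝ) ≤ N := by exact_mod_cast hN3
    set x : ℝ := 3 * (N : ℝ) + 1 with hx
    have hx0 : 0 < x := by positivity
    set u : ℝ := x ^ (1 / 4 : ℝ) with hu
    have hu4 : u ^ 4 = x := by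
      rw [hu, ← Real.rpow_natCast, ← Real.rpow_mul hx0.le]; norm_num
    have hsq : Real.sqrt (3 * N) ≤ u ^ 2 := by
      rw [Real.sqrt_le_left (by positivity)]
      calc (3 * (N : ℝ)) ≤ x := by rw [hx]; linarith
        _ = (u ^ 2) ^ 2 := by rw [← hu4]; ring
    have hl3 : Real.log (3 * N) ≤ u := by
      refine le_trans (Real.log_le_log (by positivity) (by rw [hx]; linarith)) hN
    have hu0 : 0 ≤ u := by linarith
    have h6 : 2 * Real.sqrt (3 * N) * Real.log (3 * N) ≤ 2 * u ^ 2 * u := by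
      apply mul_le_mul (by linarith) hl3 (Real.log_nonneg (by linarith)) (by positivity)
    have h7 : 3 * (N : ℝ) = u ^ 4 - 1 := by rw [hu4, hx]; ring
    have h8 : 100 * u ^ 3 ≤ u ^ 4 := by
      have h0 : 0 ≤ u ^ 3 := by positivity
      have : u ^ 4 = u ^ 3 * u := by ring
      rw [this]; nlinarith
    have h9 : 10000 * u ≤ u ^ 3 := by
      have h0 : 10000 ≤ u ^ 2 := by nlinarith
      have : u ^ 3 = u ^ 2 * u := by ring
      rw [this]; nlinarith
    have h10 : 2 * u ^ 2 * u = 2 * u ^ 3 := by ring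
    rw [h10] at h6
    linarith
  filter_upwards [hlog, eventually_ge_atTop 1] with N hN hN1
  have hNr : (1 : ℝ) ≤ N := by exact_mod_cast hN1
  have h1 := Chebyshev.theta_ge (3 * N)
  have h2 := Chebyshev.theta_le_log4_mul_x (x := (N : ℝ)) (by positivity)
  have h3 : Chebyshev.theta ((3 * N : ℕ) : ℝ) = Chebyshev.theta (N : ℝ) +
      ∑ p ∈ (Ioc N (3 * N)).filter Nat.Prime, Real.log p := by
    unfold Chebyshev.theta
    rw [Nat.floor_natCast, Nat.floor_natCast]
    have : (Ioc 0 (3 * N)).filter Nat.Prime =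
        (Ioc 0 N).filter Nat.Prime ∪ (Ioc N (3 * N)).filter Nat.Prime := by
      rw [← filter_union, Ioc_union_Ioc_eq_Ioc (by omega) (by omega)]
    rw [this, sum_union]
    apply disjoint_filter_filter
    rw [disjoint_left]
    intro a ha hb
    rw [mem_Ioc] at ha hb
    omega
  have h4 : ∑ p ∈ (Ioc N (3 * N)).filter Nat.Prime, Real.log p ≤
      (((Ioc N (3 * N)).filter Nat.Prime).card : ℝ) * Real.log (3 * N) := by
    rw [← nsmul_eq_mul, ← sum_const]
    apply sum_le_sum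
    intro p hp
    rw [mem_filter, mem_Ioc] at hp
    apply Real.log_le_log
    · exact_mod_cast hp.2.pos
    · exact_mod_cast hp.1.2
  have hl4 : Real.log 4 = 2 * Real.log 2 := by
    rw [show (4 : ℝ) = 2 ^ 2 by norm_num, Real.log_pow]; norm_num
  have hl2 := Real.log_two_gt_d9
  rw [hl4] at h2
  push_cast at h1 h3
  rw [h3] at h1
  nlinarith

/-- the analytic choice of parameters -/
theorem main (θ : ℝ) (hθ : 3 / 4 < θ) (hθ1 : θ ≤ 1) : ∃ R : ℕ, 0 < R ∧ ∃ X₀ : ℝ, ∀ X : ℝ, X₀ ≤ X →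
    ∀ κ lam s e j : ℤ, Fam κ lam s e j →
    X ^ (θ - 1 / 2) / Real.log X ^ 8 ≤ (({n : ℕ | X ≤ n ∧ (n : ℝ) ≤ X + X ^ θ ∧ (n : ℤ) % 8 = j ∧
      Squarefree n ∧ Cong n ∧ n.primeFactors.card ≤ R ∧
      ∀ p : ℕ, p.Prime → p ∣ n → p = 2 ∨ X ^ (1 / (R : ℝ)) < p}.ncard : ℕ) : ℝ) := by
  obtain ⟨c₀, c, hc, hcP⟩ := card_P
  set m : ℕ := 12 * c₀ + 8 with hm
  set δ : ℝ := (θ - 3 / 4) / m with hδ
  have hm0 : (0 : ℝ) < m := by rw [hm]; positivity
  have hδ0 : 0 < δ := div_pos (by linarith) hm0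
  have hδm : δ * m = θ - 3 / 4 := by rw [hδ]; field_simp
  have hm8 : (8 : ℝ) ≤ m := by rw [hm]; push_cast; linarith [Nat.cast_nonneg (α := ℝ) c₀]
  have hδ8 : δ * 8 ≤ 1 / 4 := by
    have : δ * 8 ≤ δ * m := mul_le_mul_of_nonneg_left hm8 hδ0.le
    linarith
  set R : ℕ := ⌈2 / δ⌉₊ + 1 with hR
  have hR0 : 0 < R := by omega
  set c₁ : ℝ := c ^ 6 with hc1
  have hc1' : 0 < c₁ := by positivity
  -- one big constant
  set K : ℝ := 10 ^ 30 * (1 + 1 / c₁) * 4 ^ R with hK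
  have hKpos : 0 < K := by positivity
  have hK1 : 10 ^ 30 ≤ K := by
    have h1 : (1 : ℝ) ≤ 4 ^ R := one_le_pow₀ (by norm_num)
    have h2 : (0 : ℝ) < 1 / c₁ := by positivity
    have h3 : (1 : ℝ) ≤ (1 + 1 / c₁) * 4 ^ R := one_le_mul_of_one_le_of_one_le (by linarith) h1
    rw [hK, mul_assoc]
    exact le_mul_of_one_le_right (by positivity) h3
  have ev1 : ∀ᶠ X : ℝ in atTop, K * Real.log X ^ 8 ≤ X ^ δ := by
    have h1 : (fun x : ℝ => Real.log x) =o[atTop] (fun x : ℝ => x ^ (δ / 9)) :=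
      isLittleO_log_rpow_atTop (by positivity)
    have h2 : ∀ᶠ x : ℝ in atTop, K ≤ x ^ (δ / 9) :=
      (tendsto_rpow_atTop (by positivity)).eventually_ge_atTop K
    filter_upwards [h1.bound (by norm_num : (0 : ℝ) < 1), h2, eventually_ge_atTop 1]
      with x hx hx2 hx1
    rw [one_mul, Real.norm_of_nonneg (Real.log_nonneg hx1),
      Real.norm_of_nonneg (by positivity)] at hx
    have hl0 := Real.log_nonneg hx1
    calc K * Real.log x ^ 8 ≤ x ^ (δ / 9) * (x ^ (δ / 9)) ^ 8 :=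
          mul_le_mul hx2 (pow_le_pow_left₀ hl0 hx 8) (by positivity) (by positivity)
      _ = x ^ δ := by
          rw [← Real.rpow_natCast, ← Real.rpow_mul (by linarith), ← Real.rpow_add (by linarith)]
          congr 1
          push_cast
          ring
  have ev2 : ∀ᶠ X : ℝ in atTop, K ≤ Real.log X := Real.tendsto_log_atTop.eventually_ge_atTop K
  have evN : Tendsto (fun X : ℝ => ⌊X ^ (1 / 4 : ℝ) / 1000⌋₊) atTop atTop :=
    tendsto_nat_floor_atTop.comp
      ((tendsto_rpow_atTop (by norm_num)).atTop_div_const (by norm_num))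
  have ev3 := evN.eventually primes_lower
  have ev4 := evN.eventually (eventually_ge_atTop 1000)
  obtain ⟨X₀, hX₀⟩ := (ev1.and (ev2.and (ev3.and (ev4.and (eventually_ge_atTop (1 : ℝ)))))).exists_forall_of_atTop
  refine ⟨R, hR0, X₀, ?_⟩
  intro X hX κ lam s e j hfam
  obtain ⟨e1, e2, e3, e4, hX1⟩ := hX₀ X hX
  set L : ℝ := Real.log X with hL
  set N : ℕ := ⌊X ^ (1 / 4 : ℝ) / 1000⌋₊ with hN
  set Z : ℝ := X ^ (1 / 4 : ℝ) with hZ
  set W : ℝ := X ^ δ with hW
  have hX0 : 0 < X := by linarith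
  have hL1 : 1 ≤ L := by linarith [hK1]
  have hL0 : 0 < L := by linarith
  have hZ4 : Z ^ 4 = X := by
    rw [hZ, ← Real.rpow_natCast, ← Real.rpow_mul hX0.le]; norm_num
  have hZ0 : 0 < Z := by positivity
  have hW0 : 0 < W := by positivity
  have hWL : K * L ^ 8 ≤ W := e1
  have hL8 : 1 ≤ L ^ 8 := one_le_pow₀ hL1
  have hWK : K ≤ W := le_trans (le_mul_of_one_le_right hKpos.le hL8) hWL
  have hW1 : 10 ^ 30 ≤ W := hK1.trans hWK
  have hWpos1 : 1 ≤ W := by linarith
  -- N and Z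
  have hN1 : (N : ℝ) ≤ Z / 1000 := Nat.floor_le (by positivity)
  have hN2 : Z / 1000 < N + 1 := Nat.lt_floor_add_one _
  have hN1000 : (1000 : ℝ) ≤ N := by exact_mod_cast e4
  have hNpos : 0 < N := by omega
  have hN0 : (0 : ℝ) < N := by linarith
  have hZ1 : 1000 * (N : ℝ) ≤ Z := by linarith
  have hZ2 : Z ≤ 1001 * N := by linarith
  have hXlo : (10 : ℝ) ^ 12 * (N : ℝ) ^ 4 ≤ X := by
    have := pow_le_pow_left₀ (by positivity) hZ1 4
    rw [hZ4, mul_pow] at this
    norm_num at this ⊢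
    linarith
  have hXhi : X ≤ 1004006004001 * (N : ℝ) ^ 4 := by
    have := pow_le_pow_left₀ hZ0.le hZ2 4
    rw [hZ4, mul_pow] at this
    norm_num at this ⊢
    linarith
  have hX2 : 2 ≤ X := by
    have h1 : (2:ℝ) ≤ Z ^ 4 := by
      calc (2 : ℝ) ≤ Z := by linarith
        _ = Z ^ 1 := (pow_one Z).symm
        _ ≤ Z ^ 4 := pow_le_pow_right₀ (by linarith) (by norm_num)
    linarith
  -- W^8 ≤ Z
  have hW8 : W ^ 8 ≤ Z := by
    rw [hW, hZ, ← Real.rpow_natCast, ← Real.rpow_mul hX0.le]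
    apply Real.rpow_le_rpow_of_exponent_le hX1
    push_cast
    linarith
  -- H and T
  set H : ℝ := X ^ θ with hH
  have hHX : H ≤ X := by
    rw [hH]
    calc X ^ θ ≤ X ^ (1 : ℝ) := Real.rpow_le_rpow_of_exponent_le hX1 hθ1
      _ = X := Real.rpow_one X
  have hHW : H = W ^ m * Z ^ 3 := by
    rw [hH, hW, hZ, ← Real.rpow_natCast, ← Real.rpow_mul hX0.le, ← Real.rpow_natCast (X ^ (1/4:ℝ)),
      ← Real.rpow_mul hX0.le, ← Real.rpow_add hX0]
    congr 1
    rw [hδm]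
    push_cast
    ring
  set q : ℝ := H / (10 ^ 10 * (N : ℝ) ^ 3) with hq
  have hN3 : (0 : ℝ) < (N : ℝ) ^ 3 := by positivity
  have hq0 : 0 ≤ q := by rw [hq, hHW]; positivity
  set T : ℕ := ⌊q⌋₊ with hT
  have hTq : (T : ℝ) ≤ q := Nat.floor_le hq0
  have hqT : q < T + 1 := Nat.lt_floor_add_one _
  have hqW : W ^ m / 10 ≤ q := by
    rw [hq, le_div_iff₀ (by positivity), hHW]
    have h1 : (10 : ℝ) ^ 9 * (N : ℝ) ^ 3 ≤ Z ^ 3 := by
      have := pow_le_pow_left₀ (by positivity) hZ1 3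
      rw [mul_pow] at this
      norm_num at this ⊢
      linarith
    have h2 : 0 < W ^ m := by positivity
    calc W ^ m / 10 * (10 ^ 10 * (N : ℝ) ^ 3) = W ^ m * (10 ^ 9 * (N : ℝ) ^ 3) := by ring
      _ ≤ W ^ m * Z ^ 3 := mul_le_mul_of_nonneg_left h1 h2.le
  have hm1 : W ≤ W ^ m := by
    calc W = W ^ 1 := (pow_one W).symm
      _ ≤ W ^ m := pow_le_pow_right₀ hWpos1 (by omega)
  have hTW : W ^ m / 20 ≤ T := by linarith
  have hT0 : (0 : ℝ) < T := by
    have : (0 : ℝ) < W ^ m / 20 := by positivity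
    linarith
  have hTH : (T : ℝ) * (10 ^ 10 * (N : ℝ) ^ 3) ≤ H := by
    have := mul_le_mul_of_nonneg_right hTq (by positivity : (0:ℝ) ≤ 10 ^ 10 * (N : ℝ) ^ 3)
    rwa [hq, div_mul_cancel₀ _ (by positivity)] at this
  have hHT : H < ((T : ℝ) + 1) * (10 ^ 10 * (N : ℝ) ^ 3) := by
    have := mul_lt_mul_of_pos_right hqT (by positivity : (0:ℝ) < 10 ^ 10 * (N : ℝ) ^ 3)
    rwa [hq, div_mul_cancel₀ _ (by positivity)] at this
  have hTN : T ≤ 1000 * N := by
    have h1 : (T : ℝ) * (10 ^ 10 * (N : ℝ) ^ 3) ≤ (1000 * N) * (10 ^ 10 * (N : ℝ) ^ 3) := by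
      calc (T : ℝ) * (10 ^ 10 * (N : ℝ) ^ 3) ≤ H := hTH
        _ ≤ X := hHX
        _ ≤ 1004006004001 * (N : ℝ) ^ 4 := hXhi
        _ ≤ (1000 * N) * (10 ^ 10 * (N : ℝ) ^ 3) := by
            have h0 : (0 : ℝ) < (N : ℝ) ^ 4 := by positivity
            have h1 : (1000 * N) * (10 ^ 10 * (N : ℝ) ^ 3) = 10 ^ 13 * (N : ℝ) ^ 4 := by ring
            rw [h1]
            exact mul_le_mul_of_nonneg_right (by norm_num) h0.le
    have h2 : (T : ℝ) ≤ 1000 * N := le_of_mul_le_mul_right h1 (by positivity)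
    exact_mod_cast h2
  -- Y
  set Y : ℕ := ⌊W⌋₊ with hY
  have hY1 : (Y : ℝ) ≤ W := Nat.floor_le hW0.le
  have hY2 : W < Y + 1 := Nat.lt_floor_add_one _
  have hY36 : 36 ≤ Y := by
    have : (36 : ℝ) ≤ Y := by linarith
    exact_mod_cast this
  have hYW : W / 2 ≤ Y := by linarith
  have hW2 : W ^ 2 ≤ W ^ 8 := pow_le_pow_right₀ hWpos1 (by norm_num)
  have hWN : 10 ^ 6 * W ^ 2 ≤ N := by
    have h1 : W ^ 3 ≤ W ^ 8 := pow_le_pow_right₀ hWpos1 (by norm_num)
    have h2 : W ^ 3 = W ^ 2 * W := by ring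
    have h3 : W ^ 2 * 10 ^ 30 ≤ W ^ 3 := by
      rw [h2]; exact mul_le_mul_of_nonneg_left hW1 (by positivity)
    have h4 : W ^ 2 * (1001 * 10 ^ 6) ≤ W ^ 2 * 10 ^ 30 :=
      mul_le_mul_of_nonneg_left (by norm_num) (by positivity)
    have h5 : W ^ 2 * (1001 * 10 ^ 6) ≤ 1001 * N :=
      h4.trans (h3.trans (h1.trans (hW8.trans hZ2)))
    have h6 : W ^ 2 * (1001 * 10 ^ 6) = 1001 * (10 ^ 6 * W ^ 2) := by ring
    rw [h6] at h5
    exact le_of_mul_le_mul_left h5 (by norm_num)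
  have hYN : Y ≤ N := by
    have h1 : W ≤ W ^ 2 := by
      rw [sq]; exact le_mul_of_one_le_right hW0.le hWpos1
    have h2 : W ^ 2 ≤ 10 ^ 6 * W ^ 2 := le_mul_of_one_le_left (by positivity) (by norm_num)
    have : (Y : ℝ) ≤ N := hY1.trans (h1.trans (h2.trans hWN))
    exact_mod_cast this
  obtain ⟨J, hJ1, hJ2⟩ := Pool.Agent.H661R3.OP.SVA.exists_J (show 2 ≤ Y by omega)
  have hJL : (2 : ℝ) ^ J ≤ 3 * L := by
    have h1 : ((2 : ℝ) ^ 2 ^ J) ≤ (Y : ℝ) ^ 2 := by exact_mod_cast hJ2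
    have h2 : (Y : ℝ) ^ 2 ≤ X := by
      calc (Y : ℝ) ^ 2 ≤ W ^ 2 := pow_le_pow_left₀ (by positivity) hY1 2
        _ ≤ 10 ^ 6 * W ^ 2 := le_mul_of_one_le_left (by positivity) (by norm_num)
        _ ≤ N := hWN
        _ ≤ Z := by linarith
        _ ≤ Z ^ 4 := by
            have : 1 ≤ Z := by linarith
            calc Z = Z ^ 1 := (pow_one Z).symm
              _ ≤ Z ^ 4 := pow_le_pow_right₀ this (by norm_num)
        _ = X := hZ4
    have h3 := Real.log_le_log (by positivity) (h1.trans h2)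
    rw [Real.log_pow] at h3
    push_cast at h3
    have h4 := Real.log_two_gt_d9
    have h5 : (0 : ℝ) < 2 ^ J := by positivity
    have h6 : (2 : ℝ) ^ J * (1 / 3) ≤ 2 ^ J * Real.log 2 :=
      mul_le_mul_of_nonneg_left (by linarith only [h4]) h5.le
    linarith only [h3, h6]
  -- the count of pairs
  have hP := hcP κ lam s e j hfam N Y J T X H hNpos hYN (by omega) hJ1 hXlo hXhi hTH hTN
  have hω : ∀ n ∈ S j Y X H, n.primeFactors.card ≤ R := by
    intro n hn
    obtain ⟨-, hn2, -, hn4, -, hn6⟩ := hn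
    -- n ≤ X^2, primes > W
    have hn0 : n ≠ 0 := hn4.ne_zero
    have h1 : ((∏ p ∈ n.primeFactors.erase 2, p : ℕ) : ℝ) ≤ 2 * X := by
      have h2 : ∏ p ∈ n.primeFactors.erase 2, p ≤ n := by
        apply Nat.le_of_dvd (Nat.pos_of_ne_zero hn0)
        exact (prod_dvd_prod_of_subset _ _ _ (erase_subset _ _)).trans
          (Nat.prod_primeFactors_dvd n)
      have h3 : ((∏ p ∈ n.primeFactors.erase 2, p : ℕ) : ℝ) ≤ n := by exact_mod_cast h2
      linarith
    have h2 : W ^ (n.primeFactors.erase 2).card ≤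
        ((∏ p ∈ n.primeFactors.erase 2, p : ℕ) : ℝ) := by
      push_cast
      rw [← prod_const]
      apply Finset.prod_le_prod
      · intro _ _; exact hW0.le
      · intro p hp
        rw [mem_erase, Nat.mem_primeFactors] at hp
        have := (hn6 p hp.2.1 hp.2.2.1).resolve_left hp.1
        have h3 : (Y : ℝ) + 1 ≤ p := by exact_mod_cast this
        linarith
    have h3 : W ^ (n.primeFactors.erase 2).card ≤ X ^ (2 : ℝ) := by
      refine (h2.trans h1).trans ?_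
      rw [Real.rpow_two, sq]
      exact mul_le_mul_of_nonneg_right hX2 hX0.le
    have hXg1 : 1 < X := by
      by_contra hcon
      have : X = 1 := by linarith
      rw [hL, this, Real.log_one] at hL1
      linarith
    have h4 : δ * ((n.primeFactors.erase 2).card : ℝ) ≤ 2 := by
      rw [hW, ← Real.rpow_natCast, ← Real.rpow_mul hX0.le] at h3
      exact (Real.rpow_le_rpow_left_iff hXg1).1 h3
    have h5 : ((n.primeFactors.erase 2).card : ℝ) ≤ 2 / δ := by
      rw [le_div_iff₀ hδ0]; linarith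
    have h6 : (n.primeFactors.erase 2).card ≤ ⌈2 / δ⌉₊ := by
      exact_mod_cast h5.trans (Nat.le_ceil _)
    have h7 := pred_card_le_card_erase (s := n.primeFactors) (a := 2)
    omega
  have hcomb := comb hfam (T := T) hNpos hY36 hYN hHT R hω
  -- inclusion of sets
  set S' : Set ℕ := {n : ℕ | X ≤ n ∧ (n : ℝ) ≤ X + H ∧ (n : ℤ) % 8 = j ∧
      Squarefree n ∧ Cong n ∧ n.primeFactors.card ≤ R ∧
      ∀ p : ℕ, p.Prime → p ∣ n → p = 2 ∨ X ^ (1 / (R : ℝ)) < p} with hS'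
  have hsub : S j Y X H ⊆ S' := by
    intro n hn
    have hcard := hω n hn
    obtain ⟨n1, n2, n3, n4, n5, n6⟩ := hn
    refine ⟨n1, n2, n3, n4, n5, hcard, fun p hp hpn => ?_⟩
    rcases n6 p hp hpn with h | h
    · exact Or.inl h
    · right
      have h1 : (Y : ℝ) + 1 ≤ p := by exact_mod_cast h
      have h2 : X ^ (1 / (R : ℝ)) ≤ W := by
        rw [hW]
        apply Real.rpow_le_rpow_of_exponent_le hX1
        rw [div_le_iff₀ (by exact_mod_cast hR0)]
        have h3 : 2 / δ ≤ (R : ℝ) := by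
          refine (Nat.le_ceil _).trans ?_
          rw [hR]; push_cast; linarith
        rw [div_le_iff₀ hδ0] at h3
        linarith
      linarith
  have hfin : S'.Finite := by
    refine (Set.finite_Iic ⌈X + H⌉₊).subset ?_
    rintro n ⟨-, h, -⟩
    rw [Set.mem_Iic]
    exact_mod_cast h.trans (Nat.le_ceil _)
  have hSS : ((S j Y X H).ncard : ℝ) ≤ (S'.ncard : ℝ) := by
    exact_mod_cast Set.ncard_le_ncard hsub hfin
  set sN : ℝ := (S'.ncard : ℝ) with hsN
  have hs0 : 0 ≤ sN := by rw [hsN]; positivity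
  have hR4 : (1 : ℝ) ≤ 4 ^ R := one_le_pow₀ (by norm_num)
  have hKc : 10 ^ 30 * 4 ^ R ≤ K * c₁ := by
    have : K * c₁ = 10 ^ 30 * 4 ^ R * (c₁ + 1) := by rw [hK]; field_simp
    rw [this]
    exact le_mul_of_one_le_right (by positivity) (by linarith only [hc1'])
  have hKc' : 10 ^ 30 ≤ K * c₁ := le_trans (le_mul_of_one_le_right (by positivity) hR4) hKc
  -- lower bound for the pairs
  set A : ℝ := c₁ / L ^ 6 with hA
  have hL6 : 0 < L ^ 6 := by positivity
  have hA0 : 0 < A := by positivity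
  have hWA : 10 ^ 30 ≤ W * A := by
    have h1 : K * L ^ 6 ≤ W := by
      refine le_trans ?_ hWL
      apply mul_le_mul_of_nonneg_left _ hKpos.le
      exact pow_le_pow_right₀ hL1 (by norm_num)
    have h2 : K * L ^ 6 * A = K * c₁ := by rw [hA]; field_simp
    have h3 : K * L ^ 6 * A ≤ W * A := mul_le_mul_of_nonneg_right h1 hA0.le
    linarith
  have hT120 : (T : ℝ) / 240 ≤ ((T / 120 : ℕ) : ℝ) := by
    have h1 : T < 120 * (T / 120) + 120 := by omega
    have h2 : (T : ℝ) < 120 * ((T / 120 : ℕ) : ℝ) + 120 := by exact_mod_cast h1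
    have h3 : (240 : ℝ) ≤ T := by linarith
    linarith
  have hcJ : A / 729 ≤ (c / 2 ^ J) ^ 6 := by
    have h1 : c / (3 * L) ≤ c / 2 ^ J := div_le_div_of_nonneg_left hc.le (by positivity) hJL
    have h2 := pow_le_pow_left₀ (by positivity) h1 6
    have h3 : (c / (3 * L)) ^ 6 = A / 729 := by
      rw [hA, hc1, div_pow, mul_pow, div_div]
      norm_num
      ring
    rw [← h3]; exact h2
  have hpow : ((2 : ℝ) ^ 2 ^ J) ^ (c₀ * 3) ≤ T * A / 699840 := by
    have h1 : ((2 : ℝ) ^ 2 ^ J) ≤ W ^ 2 := by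
      have h0 : ((2 : ℝ) ^ 2 ^ J) ≤ (Y : ℝ) ^ 2 := by exact_mod_cast hJ2
      exact h0.trans (pow_le_pow_left₀ (by positivity) hY1 2)
    have h2 : ((2 : ℝ) ^ 2 ^ J) ^ (c₀ * 3) ≤ W ^ (6 * c₀) := by
      calc ((2 : ℝ) ^ 2 ^ J) ^ (c₀ * 3) ≤ (W ^ 2) ^ (c₀ * 3) :=
            pow_le_pow_left₀ (by positivity) h1 _
        _ = W ^ (6 * c₀) := by rw [← pow_mul]; congr 1; ring
    have h3 : W ^ (6 * c₀) * W ≤ W ^ m := by
      rw [← pow_succ]
      exact pow_le_pow_right₀ hWpos1 (by omega)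
    have h4 : W ^ (6 * c₀) * W ≤ 20 * T := by linarith
    set B : ℝ := W ^ (6 * c₀) with hB
    have hB0 : 0 < B := by positivity
    have h5 : B * 10 ^ 30 ≤ B * (W * A) := mul_le_mul_of_nonneg_left hWA hB0.le
    have h6 : B * W * A ≤ 20 * T * A := mul_le_mul_of_nonneg_right h4 hA0.le
    have h7 : B * 10 ^ 30 ≤ 20 * (T * A) := by linarith
    have h8 : 0 < T * A := by positivity
    refine h2.trans ?_
    rw [le_div_iff₀ (by norm_num)]
    linarith
  have hE : T * A / 699840 ≤ ((T / 120 : ℕ) : ℝ) / 2 * (c / 2 ^ J) ^ 6 -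
      ((2 : ℝ) ^ 2 ^ J) ^ (c₀ * 3) := by
    have h1 : (T : ℝ) / 240 / 2 * (A / 729) ≤ ((T / 120 : ℕ) : ℝ) / 2 * (c / 2 ^ J) ^ 6 := by
      apply mul_le_mul _ hcJ (by positivity) (by positivity)
      linarith
    have h2 : (T : ℝ) / 240 / 2 * (A / 729) = 2 * (T * A / 699840) := by ring
    linarith
  have hπ : (N : ℝ) / 2 ≤ (((Ioc N (3 * N)).filter Nat.Prime).card : ℝ) * L := by
    refine e3.trans ?_
    apply mul_le_mul_of_nonneg_left _ (by positivity)
    rw [hL]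
    apply Real.log_le_log (by positivity)
    have h1 : 3 * (N : ℝ) ≤ Z := by linarith
    have h2 : Z ≤ Z ^ 4 := by
      calc Z = Z ^ 1 := (pow_one Z).symm
        _ ≤ Z ^ 4 := pow_le_pow_right₀ (by linarith) (by norm_num)
    linarith
  set pc : ℝ := (((Ioc N (3 * N)).filter Nat.Prime).card : ℝ) with hpc
  set E : ℝ := ((T / 120 : ℕ) : ℝ) / 2 * (c / 2 ^ J) ^ 6 - ((2 : ℝ) ^ 2 ^ J) ^ (c₀ * 3) with hEd
  have hpc0 : 0 ≤ pc := by rw [hpc]; positivity
  set PP : ℝ := ((P κ lam e N Y X H).card : ℝ) with hPP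
  set NT : ℝ := N * T with hNT
  have hNT0 : 0 < NT := by positivity
  have hPlow : NT * A / 1399680 ≤ PP * L := by
    have h0 : 0 ≤ T * A / 699840 := by positivity
    calc NT * A / 1399680 = (N / 2) * (T * A / 699840) := by rw [hNT]; ring
      _ ≤ (pc * L) * E := mul_le_mul hπ hE h0 (by positivity)
      _ = (pc * E) * L := by ring
      _ ≤ PP * L := mul_le_mul_of_nonneg_right hP hL0.le
  -- the bad pairs
  have hb1 : 28000 * (N : ℝ) ≤ 560000 * (NT / W) := by
    have h1 : W ≤ 20 * T := by linarith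
    have h2 : (N : ℝ) * W ≤ N * (20 * T) := mul_le_mul_of_nonneg_left h1 hN0.le
    have h3 : (N : ℝ) ≤ 20 * (NT / W) := by
      rw [hNT, ← mul_div_assoc, le_div_iff₀ hW0]
      linarith
    linarith
  have hb2 : (15000 * N / Y : ℝ) ≤ 30000 * N / W := by
    rw [div_le_div_iff₀ (by linarith) hW0]
    have h1 : (N : ℝ) * (W / 2) ≤ N * Y := mul_le_mul_of_nonneg_left hYW hN0.le
    linarith
  have hb3 : Real.sqrt (15000 * N) ≤ N / W := by
    rw [Real.sqrt_le_left (by positivity), div_pow, le_div_iff₀ (by positivity)]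
    have h1 : 15000 * W ^ 2 ≤ N := by linarith [sq_nonneg W]
    have h2 := mul_le_mul_of_nonneg_left h1 hN0.le
    linarith
  have hb4 : 3 * (((T : ℝ) + 1) * (15000 * N / Y + Real.sqrt (15000 * N))) ≤
      180006 * (NT / W) := by
    have h1 : (T : ℝ) + 1 ≤ 2 * T := by linarith
    have h2 : (15000 * N / Y + Real.sqrt (15000 * N) : ℝ) ≤ 30001 * (N / W) := by
      have : (30000 * N / W : ℝ) = 30000 * (N / W) := by ring
      linarith
    have h3 := mul_le_mul h1 h2 (by positivity) (by positivity)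
    have h4 : 2 * (T : ℝ) * (30001 * (N / W)) = 60002 * (NT / W) := by rw [hNT]; ring
    linarith
  have hb5 : NT / W * 10 ^ 30 ≤ NT * A := by
    rw [div_mul_eq_mul_div, div_le_iff₀ hW0]
    have := mul_le_mul_of_nonneg_left hWA hNT0.le
    linarith
  have hb6 : NT / W * (L * 10 ^ 30) ≤ NT * A := by
    -- a second power of the logarithm
    have h1 : L * 10 ^ 30 ≤ W * A := by
      have h2 : K * L ^ 7 ≤ W := by
        refine le_trans ?_ hWL
        apply mul_le_mul_of_nonneg_left _ hKpos.le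
        exact pow_le_pow_right₀ hL1 (by norm_num)
      have h3 : K * L ^ 7 * A = K * c₁ * L := by rw [hA]; field_simp
      have h4 : K * L ^ 7 * A ≤ W * A := mul_le_mul_of_nonneg_right h2 hA0.le
      have h5 := mul_le_mul_of_nonneg_right hKc' hL0.le
      linarith
    rw [div_mul_eq_mul_div, div_le_iff₀ hW0]
    have := mul_le_mul_of_nonneg_left h1 hNT0.le
    linarith
  have hmain : NT * A / 2799360 ≤ 4 ^ R * sN * L := by
    have h1 : PP ≤ 1000000 * (NT / W) + 4 ^ R * sN := by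
      have h2 : (4 : ℝ) ^ R * ((S j Y X H).ncard : ℝ) ≤ 4 ^ R * sN :=
        mul_le_mul_of_nonneg_left hSS (by positivity)
      have h3 : 0 < NT / W := by positivity
      linarith
    have h4 := mul_le_mul_of_nonneg_right h1 hL0.le
    have h5 : NT / W * L ≤ NT * A / 10 ^ 30 := by
      rw [le_div_iff₀ (by norm_num)]
      linarith
    have h6 : 0 < NT * A := by positivity
    have h7 : (1000000 * (NT / W) + 4 ^ R * sN) * L = 1000000 * (NT / W * L) + 4 ^ R * sN * L := by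
      ring
    rw [h7] at h4
    have h8 : 1000000 * (NT * A / 10 ^ 30) ≤ NT * A / 2799360 := by
      rw [mul_div_assoc', div_le_div_iff₀ (by norm_num) (by norm_num)]
      linarith
    have h9 : NT * A / 1399680 = 2 * (NT * A / 2799360) := by ring
    linarith
  -- conclusion
  have hV : X ^ (θ - 1 / 2) = W ^ m * Z := by
    rw [hW, hZ, ← Real.rpow_natCast, ← Real.rpow_mul hX0.le, ← Real.rpow_add hX0]
    congr 1
    rw [hδm]
    ring
  set V : ℝ := X ^ (θ - 1 / 2) with hVd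
  have hVNT : V ≤ 20020 * NT := by
    rw [hV, hNT]
    have h1 : W ^ m ≤ 20 * T := by linarith
    have := mul_le_mul h1 hZ2 hZ0.le (by positivity)
    linarith
  rw [div_le_iff₀ (by positivity)]
  have f1 : NT * A ≤ 2799360 * (4 ^ R * sN * L) := by
    rw [div_le_iff₀ (by norm_num)] at hmain
    linarith
  have f2 : NT * A * L ^ 6 = NT * c₁ := by rw [hA]; field_simp
  have f3 : NT * c₁ ≤ 2799360 * (4 ^ R * sN * L) * L ^ 6 := by
    rw [← f2]; exact mul_le_mul_of_nonneg_right f1 hL6.le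
  have f4 : V * c₁ ≤ 20020 * (NT * c₁) := by
    have := mul_le_mul_of_nonneg_right hVNT hc1'.le
    linarith
  have f5 : V * c₁ ≤ 10 ^ 30 * 4 ^ R * (sN * L ^ 7) := by
    have h1 : 0 ≤ 4 ^ R * (sN * L ^ 7) := by positivity
    have h2 : 2799360 * (4 ^ R * sN * L) * L ^ 6 = 2799360 * (4 ^ R * (sN * L ^ 7)) := by ring
    rw [h2] at f3
    have h3 : (20020 : ℝ) * (2799360 * (4 ^ R * (sN * L ^ 7))) ≤ 10 ^ 30 * (4 ^ R * (sN * L ^ 7)) := by
      rw [← mul_assoc]
      exact mul_le_mul_of_nonneg_right (by norm_num) h1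
    linarith
  have f6 : 10 ^ 30 * 4 ^ R * (sN * L ^ 7) ≤ (L * c₁) * (sN * L ^ 7) := by
    apply mul_le_mul_of_nonneg_right _ (by positivity)
    exact hKc.trans (mul_le_mul_of_nonneg_right e2 hc1'.le)
  have f7 : V * c₁ ≤ (sN * L ^ 8) * c₁ := by
    have : (L * c₁) * (sN * L ^ 7) = (sN * L ^ 8) * c₁ := by ring
    linarith
  exact le_of_mul_le_mul_right f7 hc1'

end Pool.Agent.TH646.CA
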