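import Mathlib
import Pool.Agent.H661R3.OP.Defs

set_option autoImplicit false

open Finset

namespace Pool.Agent.TH646.CA

open Pool.Agent.H661R3.OP (Rough)

/-- the quartic form -/
def F (κ lam a b : ℤ) : ℤ := κ * a * b * (a ^ 2 - lam ^ 2 * b ^ 2)

/-- the six families -/
def Fam (κ lam s e j : ℤ) : Prop :=
  (κ = 1 ∧ lam = 36 ∧ s = 6 ∧ e = 17 ∧ j = 1) ∨ (κ = 1 ∧ lam = 36 ∧ s = 6 ∧ e = 43 ∧ j = 3) ∨
  (κ = 1 ∧ lam = 36 ∧ s = 6 ∧ e = 13 ∧ j = 5) ∨ (κ = 1 ∧ lam = 36 ∧ s = 6 ∧ e = 7 ∧ j = 7) ∨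
  (κ = 2 ∧ lam = 18 ∧ s = 3 ∧ e = 1 ∧ j = 2) ∨ (κ = 2 ∧ lam = 18 ∧ s = 3 ∧ e = 11 ∧ j = 6)

theorem Fam.kap {κ lam s e j : ℤ} (h : Fam κ lam s e j) : κ = 1 ∨ κ = 2 := by
  unfold Fam at h; omega

theorem Fam.lm {κ lam s e j : ℤ} (h : Fam κ lam s e j) : lam = 36 ∨ lam = 18 := by
  unfold Fam at h; omega

theorem Fam.spos {κ lam s e j : ℤ} (h : Fam κ lam s e j) : 0 < s := by
  unfold Fam at h; omega

theorem Fam.ks {κ lam s e j : ℤ} (h : Fam κ lam s e j) : κ * s ^ 2 = lam := by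
  rcases h with h | h | h | h | h | h <;> obtain ⟨rfl, rfl, rfl, rfl, rfl⟩ := h <;> norm_num

/-- `e`, `e ± lam` are prime to 30 -/
theorem Fam.cop {κ lam s e j : ℤ} (h : Fam κ lam s e j) (c : ℤ) (hc : c = 0 ∨ c = 1 ∨ c = -1)
    (p : ℕ) (hp : p.Prime) (h120 : (p : ℤ) ∣ 120) : ¬ (p : ℤ) ∣ e + c * lam := by
  have h120' : p ∣ 120 := by exact_mod_cast h120
  have hp2 : p = 2 ∨ p = 3 ∨ p = 5 := by
    have h1 : p ∣ 2 ^ 3 * (3 * 5) := by norm_num; exact h120'
    rcases (Nat.Prime.dvd_mul hp).1 h1 with h2 | h2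
    · left; exact (Nat.prime_dvd_prime_iff_eq hp Nat.prime_two).1 (hp.dvd_of_dvd_pow h2)
    · rcases (Nat.Prime.dvd_mul hp).1 h2 with h3 | h3
      · right; left; exact (Nat.prime_dvd_prime_iff_eq hp Nat.prime_three).1 h3
      · right; right; exact (Nat.prime_dvd_prime_iff_eq hp Nat.prime_five).1 h3
  rcases h with h | h | h | h | h | h <;> obtain ⟨rfl, rfl, rfl, rfl, rfl⟩ := h <;>
    rcases hc with rfl | rfl | rfl <;> rcases hp2 with rfl | rfl | rfl <;> norm_num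

/-- the class mod 8 -/
theorem Fam.mod8 {κ lam s e j : ℤ} (h : Fam κ lam s e j) (t b : ℤ) (hb : b % 2 = 1) :
    F κ lam (120 * t + e * b) b % 8 = j := by
  obtain ⟨u, hu⟩ : ∃ u, b = 2 * u + 1 := ⟨b / 2, by omega⟩
  obtain ⟨w, hw⟩ : ∃ w, b ^ 2 = 8 * w + 1 := by
    have h1 : Even (u * (u + 1)) := Int.even_mul_succ_self u
    obtain ⟨w, hw⟩ := h1
    refine ⟨w, ?_⟩
    rw [hu]
    have : (2 * u + 1) ^ 2 = 4 * (u * (u + 1)) + 1 := by ring
    rw [this, hw]; ring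
  have key : ∀ e' : ℤ, ∃ z : ℤ, (120 * t + e' * b) * b * ((120 * t + e' * b) ^ 2 -
      36 * (36 * b ^ 2)) = 8 * z + e' ^ 3 * (b ^ 2) ^ 2 := by
    intro e'
    refine ⟨15 * t * b * ((120 * t + e' * b) ^ 2 - 36 * (36 * b ^ 2)) +
      e' * b ^ 2 * (15 * t * (120 * t + 2 * e' * b) - 162 * b ^ 2), ?_⟩
    ring
  have key2 : ∀ e' : ℤ, ∃ z : ℤ, 2 * ((120 * t + e' * b) * b * ((120 * t + e' * b) ^ 2 -
      18 * (18 * b ^ 2))) = 8 * z + 2 * e' ^ 3 * (b ^ 2) ^ 2 := by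
    intro e'
    refine ⟨2 * (15 * t * b * ((120 * t + e' * b) ^ 2 - 18 * (18 * b ^ 2))) +
      2 * (e' * b ^ 2 * (15 * t * (120 * t + 2 * e' * b))) - 81 * e' * b ^ 2 * b ^ 2, ?_⟩
    ring
  have sq1 : (b ^ 2) ^ 2 = 8 * (8 * w ^ 2 + 2 * w) + 1 := by rw [hw]; ring
  rcases h with h | h | h | h | h | h <;> obtain ⟨rfl, rfl, rfl, rfl, rfl⟩ := h
  · obtain ⟨z, hz⟩ := key 17
    have : F 1 36 (120 * t + 17 * b) b = 8 * z + 17 ^ 3 * (b ^ 2) ^ 2 := by
      rw [← hz]; unfold F; ring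
    rw [this, sq1]; omega
  · obtain ⟨z, hz⟩ := key 43
    have : F 1 36 (120 * t + 43 * b) b = 8 * z + 43 ^ 3 * (b ^ 2) ^ 2 := by
      rw [← hz]; unfold F; ring
    rw [this, sq1]; omega
  · obtain ⟨z, hz⟩ := key 13
    have : F 1 36 (120 * t + 13 * b) b = 8 * z + 13 ^ 3 * (b ^ 2) ^ 2 := by
      rw [← hz]; unfold F; ring
    rw [this, sq1]; omega
  · obtain ⟨z, hz⟩ := key 7
    have : F 1 36 (120 * t + 7 * b) b = 8 * z + 7 ^ 3 * (b ^ 2) ^ 2 := by
      rw [← hz]; unfold F; ring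
    rw [this, sq1]; omega
  · obtain ⟨z, hz⟩ := key2 1
    have : F 2 18 (120 * t + 1 * b) b = 8 * z + 2 * 1 ^ 3 * (b ^ 2) ^ 2 := by
      rw [← hz]; unfold F; ring
    rw [this, sq1]; omega
  · obtain ⟨z, hz⟩ := key2 11
    have : F 2 18 (120 * t + 11 * b) b = 8 * z + 2 * 11 ^ 3 * (b ^ 2) ^ 2 := by
      rw [← hz]; unfold F; ring
    rw [this, sq1]; omega

/-- squarefree values -/
theorem sqf {κ lam a b : ℤ} {Y : ℕ} (hκ : κ = 1 ∨ κ = 2) (hlam : lam = 36 ∨ lam = 18)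
    (hY : 36 ≤ Y) {q : ℕ} (hq : q.Prime) (hqb : (q : ℤ) = b) (hqY : Y < q) (hba : ¬ b ∣ a)
    (h0 : Rough Y a) (h1 : Rough Y (a - lam * b)) (h2 : Rough Y (a + lam * b))
    (s0 : ∀ p : ℕ, p.Prime → ¬ (p : ℤ) ^ 2 ∣ a)
    (s1 : ∀ p : ℕ, p.Prime → ¬ (p : ℤ) ^ 2 ∣ a - lam * b)
    (s2 : ∀ p : ℕ, p.Prime → ¬ (p : ℤ) ^ 2 ∣ a + lam * b) (p : ℕ) (hp : p.Prime) :
    ¬ (p : ℤ) ^ 2 ∣ F κ lam a b := by
  have hpz : Prime (p : ℤ) := Nat.prime_iff_prime_int.1 hp
  have hF : F κ lam a b = κ * (b * (a * ((a - lam * b) * (a + lam * b)))) := by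
    unfold F; ring
  intro hdvd
  rw [hF] at hdvd
  have hp1 : (2 : ℤ) ≤ p := by exact_mod_cast hp.two_le
  -- `p ∣ b` implies `p = b`
  have hpb : (p : ℤ) ∣ b → (p : ℤ) = b := by
    intro h
    rw [← hqb] at h ⊢
    have h' : p ∣ q := by exact_mod_cast h
    exact_mod_cast (Nat.prime_dvd_prime_iff_eq hp hq).1 h'
  by_cases hpY : p ≤ Y
  · have n0 := h0 p hp hpY
    have n1 := h1 p hp hpY
    have n2 := h2 p hp hpY
    have nb : ¬ (p : ℤ) ∣ b := by
      intro h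
      have h3 := hpb h
      rw [← hqb] at h3
      have : p = q := by exact_mod_cast h3
      omega
    have hn : ¬ (p : ℤ) ∣ b * (a * ((a - lam * b) * (a + lam * b))) := by
      intro h
      rcases hpz.dvd_or_dvd h with h | h
      · exact nb h
      rcases hpz.dvd_or_dvd h with h | h
      · exact n0 h
      rcases hpz.dvd_or_dvd h with h | h
      · exact n1 h
      · exact n2 h
    have h4 : (p : ℤ) ^ 2 ∣ κ := hpz.pow_dvd_of_dvd_mul_right 2 hn hdvd
    have h5 : (p : ℤ) ^ 2 ≤ κ := Int.le_of_dvd (by rcases hκ with rfl | rfl <;> norm_num) h4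
    rcases hκ with rfl | rfl <;> nlinarith
  · have hp36 : (36 : ℤ) < p := by exact_mod_cast (by omega : 36 < p)
    have hsm : ∀ x : ℤ, 0 < x → x ≤ 36 → ¬ (p : ℤ) ∣ x := by
      intro x hx hx2 h
      have := Int.le_of_dvd hx h
      omega
    have nκ : ¬ (p : ℤ) ∣ κ := hsm κ (by omega) (by omega)
    have nl : ¬ (p : ℤ) ∣ lam := hsm lam (by omega) (by omega)
    have n2' : ¬ (p : ℤ) ∣ 2 := hsm 2 (by omega) (by omega)
    have hab : (p : ℤ) ∣ a → ¬ (p : ℤ) ∣ b := by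
      intro ha hb
      rw [← hpb hb] at hba
      exact hba ha
    have hdvd' := hpz.pow_dvd_of_dvd_mul_left 2 nκ hdvd
    by_cases hb : (p : ℤ) ∣ b
    · have na : ¬ (p : ℤ) ∣ a := fun ha => hab ha hb
      have hn : ¬ (p : ℤ) ∣ a * ((a - lam * b) * (a + lam * b)) := by
        intro h
        rcases hpz.dvd_or_dvd h with h | h
        · exact na h
        rcases hpz.dvd_or_dvd h with h | h
        · exact na (by
            have := dvd_add h (hb.mul_left lam)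
            rwa [show a - lam * b + lam * b = a by ring] at this)
        · exact na (by
            have := dvd_sub h (hb.mul_left lam)
            rwa [show a + lam * b - lam * b = a by ring] at this)
      have h4 := hpz.pow_dvd_of_dvd_mul_right 2 hn hdvd'
      rw [← hpb hb] at h4
      have := Int.le_of_dvd (by omega) h4
      nlinarith
    · have h3 := hpz.pow_dvd_of_dvd_mul_left 2 hb hdvd'
      by_cases ha : (p : ℤ) ∣ a
      · have hn : ¬ (p : ℤ) ∣ (a - lam * b) * (a + lam * b) := by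
          intro h
          rcases hpz.dvd_or_dvd h with h | h
          · have h5 := dvd_sub ha h
            rw [show a - (a - lam * b) = lam * b by ring] at h5
            rcases hpz.dvd_or_dvd h5 with h | h
            · exact nl h
            · exact hb h
          · have h5 := dvd_sub h ha
            rw [show a + lam * b - a = lam * b by ring] at h5
            rcases hpz.dvd_or_dvd h5 with h | h
            · exact nl h
            · exact hb h
        exact s0 p hp (hpz.pow_dvd_of_dvd_mul_right 2 hn h3)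
      · have h4 := hpz.pow_dvd_of_dvd_mul_left 2 ha h3
        by_cases h5 : (p : ℤ) ∣ a - lam * b
        · have hn : ¬ (p : ℤ) ∣ a + lam * b := by
            intro h
            have h6 := dvd_add h5 h
            rw [show a - lam * b + (a + lam * b) = 2 * a by ring] at h6
            rcases hpz.dvd_or_dvd h6 with h | h
            · exact n2' h
            · exact ha h
          exact s1 p hp (hpz.pow_dvd_of_dvd_mul_right 2 hn h4)
        · exact s2 p hp (hpz.pow_dvd_of_dvd_mul_left 2 h5 h4)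

/-- the prime factors of a value -/
theorem pf {κ lam a b : ℤ} {Y : ℕ} (hκ : κ = 1 ∨ κ = 2) {q : ℕ} (hq : q.Prime)
    (hqb : (q : ℤ) = b) (hqY : Y < q)
    (h0 : Rough Y a) (h1 : Rough Y (a - lam * b)) (h2 : Rough Y (a + lam * b))
    (p : ℕ) (hp : p.Prime) (hdvd : (p : ℤ) ∣ F κ lam a b) : p = 2 ∨ Y < p := by
  have hpz : Prime (p : ℤ) := Nat.prime_iff_prime_int.1 hp
  have hF : F κ lam a b = κ * (b * (a * ((a - lam * b) * (a + lam * b)))) := by
    unfold F; ring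
  rw [hF] at hdvd
  by_contra hcon
  push Not at hcon
  obtain ⟨hp2, hpY⟩ := hcon
  rcases hpz.dvd_or_dvd hdvd with h | h
  · rcases hκ with rfl | rfl
    · exact hpz.not_unit (isUnit_of_dvd_one h)
    · have h' : p ∣ 2 := by exact_mod_cast h
      exact hp2 ((Nat.prime_dvd_prime_iff_eq hp Nat.prime_two).1 h')
  rcases hpz.dvd_or_dvd h with h | h
  · rw [← hqb] at h
    have h' : p ∣ q := by exact_mod_cast h
    have := (Nat.prime_dvd_prime_iff_eq hp hq).1 h'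
    omega
  rcases hpz.dvd_or_dvd h with h | h
  · exact h0 p hp hpY h
  rcases hpz.dvd_or_dvd h with h | h
  · exact h1 p hp hpY h
  · exact h2 p hp hpY h

/-- `d` is the area of a right triangle with rational sides -/
def Cong (d : ℕ) : Prop :=
  ∃ a b c : ℚ, 0 < a ∧ 0 < b ∧ 0 < c ∧ a ^ 2 + b ^ 2 = c ^ 2 ∧ a * b / 2 = (d : ℚ)

theorem cong {κ lam s e j : ℤ} (h : Fam κ lam s e j) {a b : ℤ} (hb : 0 < b)
    (hab : lam * b < a) {n : ℕ} (hn : (n : ℤ) = F κ lam a b) : Cong n := by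
  have hs := h.spos
  have hks := h.ks
  have hlam : 0 < lam := by rcases h.lm with h | h <;> omega
  have hlb : 0 < lam * b := mul_pos hlam hb
  have ha : 0 < a := lt_trans hlb hab
  have hsq : (0 : ℚ) < (a : ℚ) ^ 2 - (lam * b : ℚ) ^ 2 := by
    have h1 : (lam * b : ℚ) < a := by exact_mod_cast hab
    have h2 : (0 : ℚ) < (lam * b : ℚ) := by exact_mod_cast hlb
    nlinarith
  have hsQ : (0 : ℚ) < s := by exact_mod_cast hs
  have haQ : (0 : ℚ) < a := by exact_mod_cast ha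
  have hlQ : (0 : ℚ) < (lam * b : ℚ) := by exact_mod_cast hlb
  refine ⟨((a : ℚ) ^ 2 - (lam * b : ℚ) ^ 2) / s, 2 * a * (lam * b : ℚ) / s,
    ((a : ℚ) ^ 2 + (lam * b : ℚ) ^ 2) / s, by positivity, by positivity, by positivity, ?_, ?_⟩
  · field_simp
    ring
  · have h3 : (n : ℚ) = κ * a * b * (a ^ 2 - lam ^ 2 * b ^ 2) := by
      have : ((n : ℤ) : ℚ) = ((F κ lam a b : ℤ) : ℚ) := by rw [hn]
      rw [Int.cast_natCast] at this
      rw [this]; unfold F; push_cast; ring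
    have h4 : (lam : ℚ) = κ * s ^ 2 := by exact_mod_cast hks.symm
    rw [h3]
    rw [h4]
    field_simp

end Pool.Agent.TH646.CA
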