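import Pool.Agent.TH646.CA.Size

set_option autoImplicit false

open Finset

namespace Pool.Agent.TH646.CA

open Pool.Agent.H661R3.OP (Rough)

/-- the conditions on a pair -/
def Pr (κ lam e : ℤ) (Y : ℕ) (X H : ℝ) (x : ℤ × ℤ) : Prop :=
  X ≤ (F κ lam x.1 x.2 : ℝ) ∧ (F κ lam x.1 x.2 : ℝ) ≤ X + H ∧
  (∃ q : ℕ, q.Prime ∧ (q : ℤ) = x.2) ∧ (∃ t : ℤ, x.1 = 120 * t + e * x.2) ∧
  Rough Y x.1 ∧ Rough Y (x.1 - lam * x.2) ∧ Rough Y (x.1 + lam * x.2)

open Classical in
/-- the pairs -/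
noncomputable def P (κ lam e N : ℤ) (Y : ℕ) (X H : ℝ) : Finset (ℤ × ℤ) :=
  ((Icc (4000 * N) (14000 * N)) ×ˢ (Ioc N (3 * N))).filter (Pr κ lam e Y X H)

/-- the coefficients of the three forms -/
def dd (lam e b : ℤ) : Fin 3 → ℤ := ![e * b, (e - lam) * b, (e + lam) * b]

/-- the number of `a` for a fixed prime `b` -/
theorem fiber : ∃ c₀ : ℕ, ∃ c : ℝ, 0 < c ∧ ∀ (κ lam s e j : ℤ), Fam κ lam s e j →
    ∀ (N : ℤ) (Y J T : ℕ) (X H : ℝ), 0 < N → (Y : ℤ) ≤ N → 5 ≤ Y → Y < 2 ^ 2 ^ J →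
    (10 : ℝ) ^ 12 * (N : ℝ) ^ 4 ≤ X → X ≤ 1004006004001 * (N : ℝ) ^ 4 →
    (T : ℝ) * (10 ^ 10 * (N : ℝ) ^ 3) ≤ H → (T : ℤ) ≤ 1000 * N →
    ∀ q : ℕ, q.Prime → N < q → (q : ℤ) ≤ 3 * N →
    ((T / 120 : ℕ) : ℝ) / 2 * (c / 2 ^ J) ^ 6 - ((2 : ℝ) ^ 2 ^ J) ^ (c₀ * 3) ≤
      (((P κ lam e N Y X H).filter (fun x => x.2 = (q : ℤ))).card : ℝ) := by
  classical
  obtain ⟨c₀, c, hc, hR⟩ := Pool.Agent.H661R3.SQ.SVQA.rough_low
  refine ⟨c₀, c, hc, ?_⟩
  intro κ lam s e j hfam N Y J T X H hN hYN hY5 hJ hX1 hX2 hT hTN q hq hNq hqN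
  obtain ⟨a₀, ha₀, hwin⟩ := window hfam.kap hfam.lm hN hNq hqN hX1 hX2 hT hTN
  set T₀ : ℤ := (a₀ - e * q + 119) / 120 with hT₀
  have hcop : ∀ p : ℕ, p.Prime → p ≤ Y → ¬ (p : ℤ) ∣ (q : ℤ) := by
    intro p hp hpY h
    have h' : p ∣ q := by exact_mod_cast h
    have := (Nat.prime_dvd_prime_iff_eq hp hq).1 h'
    omega
  have h := hR 3 (Fin 3) (by simp) (fun _ => 120) (dd lam e q) Y J hJ
    (by
      intro i p hp hpY h120 hdvd
      have hpz : Prime (p : ℤ) := Nat.prime_iff_prime_int.1 hp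
      fin_cases i
      · change (p : ℤ) ∣ e * q at hdvd
        rcases hpz.dvd_or_dvd hdvd with h | h
        · exact hfam.cop 0 (by omega) p hp h120 (by simpa using h)
        · exact hcop p hp hpY h
      · change (p : ℤ) ∣ (e - lam) * q at hdvd
        rcases hpz.dvd_or_dvd hdvd with h | h
        · exact hfam.cop (-1) (by omega) p hp h120 (by
            rw [show e + -1 * lam = e - lam by ring]; exact h)
        · exact hcop p hp hpY h
      · change (p : ℤ) ∣ (e + lam) * q at hdvd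
        rcases hpz.dvd_or_dvd hdvd with h | h
        · exact hfam.cop 1 (by omega) p hp h120 (by
            rw [show e + 1 * lam = e + lam by ring]; exact h)
        · exact hcop p hp hpY h)
    (by
      intro i p hp hp6
      have h2 := hp.two_le
      have : p = 2 ∨ p = 3 ∨ p = 5 := by
        interval_cases p
        · simp
        · simp
        · exact absurd hp (by norm_num)
        · simp
        · exact absurd hp (by norm_num)
      rcases this with rfl | rfl | rfl <;> norm_num)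
    T₀ (T / 120)
  rw [show max 3 1 = 3 from rfl] at h
  rw [show 2 * 3 = 6 from rfl] at h
  refine h.trans ?_
  rw [Nat.cast_le]
  set S : Set ℤ := {t : ℤ | T₀ ≤ t ∧ t < T₀ + (T / 120 : ℕ) ∧
    ∀ i, Rough Y ((fun _ => (120 : ℤ)) i * t + dd lam e q i)} with hS
  have hinj : Set.InjOn (fun t : ℤ => ((120 * t + e * q, (q : ℤ)) : ℤ × ℤ)) S := by
    intro t _ t' _ htt
    have : 120 * t + e * (q : ℤ) = 120 * t' + e * q := congrArg Prod.fst htt
    linarith
  rw [← hinj.ncard_image, ← Set.ncard_coe_finset]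
  apply Set.ncard_le_ncard
  · rintro x ⟨t, ⟨ht1, ht2, ht3⟩, rfl⟩
    have r0 := ht3 0
    have r1 := ht3 1
    have r2 := ht3 2
    have e0 : (120 : ℤ) * t + dd lam e q 0 = 120 * t + e * q := rfl
    have e1 : (120 : ℤ) * t + dd lam e q 1 = 120 * t + e * q - lam * q := by
      change (120 : ℤ) * t + (e - lam) * q = _
      ring
    have e2 : (120 : ℤ) * t + dd lam e q 2 = 120 * t + e * q + lam * q := by
      change (120 : ℤ) * t + (e + lam) * q = _
      ring
    simp only [e0] at r0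
    simp only [e1] at r1
    simp only [e2] at r2
    have hlo : a₀ ≤ 120 * t + e * q := by omega
    have hhi : 120 * t + e * q < a₀ + T := by omega
    obtain ⟨w1, w2, w3⟩ := hwin _ hlo hhi
    rw [mem_coe, mem_filter, P, mem_filter, mem_product, mem_Icc, mem_Ioc]
    refine ⟨⟨⟨⟨by change 4000 * N ≤ 120 * t + e * q; omega, w1⟩, hNq, hqN⟩, w2, w3,
      ⟨q, hq, rfl⟩, ⟨t, rfl⟩, r0, r1, r2⟩, rfl⟩
  · exact Finset.finite_toSet _

/-- all pairs -/
theorem card_P : ∃ c₀ : ℕ, ∃ c : ℝ, 0 < c ∧ ∀ (κ lam s e j : ℤ), Fam κ lam s e j →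
    ∀ (N Y J T : ℕ) (X H : ℝ), 0 < N → Y ≤ N → 5 ≤ Y → Y < 2 ^ 2 ^ J →
    (10 : ℝ) ^ 12 * (N : ℝ) ^ 4 ≤ X → X ≤ 1004006004001 * (N : ℝ) ^ 4 →
    (T : ℝ) * (10 ^ 10 * (N : ℝ) ^ 3) ≤ H → T ≤ 1000 * N →
    (((Ioc N (3 * N)).filter Nat.Prime).card : ℝ) *
      (((T / 120 : ℕ) : ℝ) / 2 * (c / 2 ^ J) ^ 6 - ((2 : ℝ) ^ 2 ^ J) ^ (c₀ * 3)) ≤
      ((P κ lam e N Y X H).card : ℝ) := by
  classical
  obtain ⟨c₀, c, hc, hR⟩ := fiber
  refine ⟨c₀, c, hc, ?_⟩
  intro κ lam s e j hfam N Y J T X H hN hYN hY5 hJ hX1 hX2 hT hTN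
  have h1 : (((P κ lam e N Y X H).card : ℕ) : ℝ) =
      ∑ b ∈ (P κ lam e N Y X H).image Prod.snd,
        (((P κ lam e N Y X H).filter (fun x => x.2 = b)).card : ℝ) := by
    rw [card_eq_sum_card_image Prod.snd (P κ lam e N Y X H)]
    push_cast
    rfl
  have h2 : ∑ q ∈ (Ioc N (3 * N)).filter Nat.Prime,
      (((P κ lam e N Y X H).filter (fun x => x.2 = (q : ℤ))).card : ℝ) ≤
      ((P κ lam e N Y X H).card : ℝ) := by
    rw [← Nat.cast_sum, Nat.cast_le]
    have h3 : ∑ q ∈ (Ioc N (3 * N)).filter Nat.Prime,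
        ((P κ lam e N Y X H).filter (fun x => x.2 = (q : ℤ))).card =
        (((Ioc N (3 * N)).filter Nat.Prime).biUnion
          (fun q => (P κ lam e N Y X H).filter (fun x => x.2 = (q : ℤ)))).card := by
      rw [card_biUnion]
      intro q _ q' _ hqq
      rw [Function.onFun, disjoint_left]
      intro x hx hx'
      rw [mem_filter] at hx hx'
      apply hqq
      have : (q : ℤ) = q' := hx.2.symm.trans hx'.2
      exact_mod_cast this
    rw [h3]
    apply card_le_card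
    intro x hx
    rw [mem_biUnion] at hx
    obtain ⟨q, _, hx⟩ := hx
    exact (mem_filter.1 hx).1
  refine le_trans ?_ h2
  rw [← nsmul_eq_mul, ← sum_const]
  apply sum_le_sum
  intro q hq
  rw [mem_filter, mem_Ioc] at hq
  exact hR κ lam s e j hfam N Y J T X H (by exact_mod_cast hN) (by exact_mod_cast hYN) hY5 hJ
    (by exact_mod_cast hX1) (by exact_mod_cast hX2) (by exact_mod_cast hT) (by exact_mod_cast hTN)
    q hq.2 (by exact_mod_cast hq.1.1) (by exact_mod_cast hq.1.2)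

open Classical in
/-- pairs with `b ∣ a` -/
theorem card_D (κ lam e : ℤ) (N Y : ℕ) (X H : ℝ) :
    (((P κ lam e N Y X H).filter (fun x => x.2 ∣ x.1)).card : ℝ) ≤ 28000 * N := by
  obtain ⟨M, hM⟩ : ∃ M : ℤ, M = 14000 := ⟨_, rfl⟩
  have hsub : (P κ lam e N Y X H).filter (fun x => x.2 ∣ x.1) ⊆
      ((Icc (1 : ℤ) M) ×ˢ (Ioc (N : ℤ) (3 * N))).image (fun y => (y.1 * y.2, y.2)) := by
    intro x hx
    rw [mem_filter, P, mem_filter, mem_product, mem_Icc, mem_Ioc] at hx
    obtain ⟨⟨⟨⟨h1, h2⟩, h3, h4⟩, -⟩, m, hm⟩ := hx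
    rw [mem_image]
    have hN0 : (0 : ℤ) ≤ N := by positivity
    have hx2 : 0 < x.2 := by omega
    refine ⟨(m, x.2), ?_, ?_⟩
    · rw [mem_product, mem_Icc, mem_Ioc]
      refine ⟨⟨?_, ?_⟩, h3, h4⟩
      · by_contra hcon
        push Not at hcon
        have : m ≤ 0 := by
          change m < 1 at hcon
          omega
        have h5 : x.2 * m ≤ 0 := mul_nonpos_of_nonneg_of_nonpos hx2.le this
        have h6 : (0 : ℤ) < N := by
          by_contra h7
          have : (N : ℤ) = 0 := by omega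
          omega
        omega
      · by_contra hcon
        push Not at hcon
        change M < m at hcon
        have h5 : x.2 * 14001 ≤ x.2 * m := mul_le_mul_of_nonneg_left (by omega) hx2.le
        omega
    · ext
      · change m * x.2 = x.1
        rw [hm]; ring
      · rfl
  have h1 := (card_le_card hsub).trans card_image_le
  rw [card_product, Int.card_Icc, Int.card_Ioc] at h1
  have h3 : (3 * (N : ℤ) - N).toNat = 2 * N := by omega
  have h4 : (M + 1 - 1).toNat = 14000 := by omega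
  rw [h3, h4] at h1
  have h5 : (((P κ lam e N Y X H).filter (fun x => x.2 ∣ x.1)).card : ℝ) ≤
      ((14000 * (2 * N) : ℕ) : ℝ) := Nat.cast_le.2 h1
  refine h5.trans (le_of_eq ?_)
  push_cast
  ring

open Classical in
/-- numbers up to `V` divisible by the square of a prime larger than `Y` -/
theorem card_V (V Y : ℕ) (hY : 1 ≤ Y) :
    (((Icc (1 : ℤ) V).filter (fun v => ∃ p : ℕ, p.Prime ∧ Y < p ∧ (p : ℤ) ^ 2 ∣ v)).card : ℝ) ≤
      V / Y + Real.sqrt V := by
  have h := Pool.Agent.H661R3.SQ.SVQA.bad_count (κ := Fin 1) 1 (by simp) (fun _ => 1)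
    (fun _ => 0) Y (Nat.sqrt V) hY 1 V
    ((Icc (1 : ℤ) V).filter (fun v => ∃ p : ℕ, p.Prime ∧ Y < p ∧ (p : ℤ) ^ 2 ∣ v)) (by
      intro t ht
      rw [mem_filter, mem_Icc] at ht
      obtain ⟨⟨h1, h2⟩, p, hp, hYp, hdvd⟩ := ht
      refine ⟨h1, by omega, 0, p, hp, hYp, ?_, ?_, by simpa using hdvd⟩
      · have := (Int.le_of_dvd (by omega) hdvd).trans h2
        rw [Nat.le_sqrt']
        exact_mod_cast this
      · intro h
        have := Int.le_of_dvd (by norm_num) h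
        have h2 := hp.two_le
        omega)
  have h2 : ((Nat.sqrt V : ℕ) : ℝ) ≤ Real.sqrt V := Real.nat_sqrt_le_real_sqrt
  simp only [Nat.cast_one, one_mul] at h
  linarith

open Classical in
/-- pairs for which a form is divisible by a large square -/
theorem card_Q {κ lam e c : ℤ} (hκ : κ = 1 ∨ κ = 2) (hlam : lam = 36 ∨ lam = 18)
    (hc : c = 0 ∨ c = 1 ∨ c = -1) (N Y T : ℕ) (hN : 0 < N) (hY : 1 ≤ Y) (X H : ℝ)
    (hTH : H < ((T : ℝ) + 1) * (10 ^ 10 * (N : ℝ) ^ 3)) :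
    (((P κ lam e N Y X H).filter (fun x => ∃ p : ℕ, p.Prime ∧ Y < p ∧
      (p : ℤ) ^ 2 ∣ x.1 + c * lam * x.2)).card : ℝ) ≤
      (T + 1) * (15000 * N / Y + Real.sqrt (15000 * N)) := by
  have h1 := card_le_mul_card_image_of_maps_to
    (s := (P κ lam e N Y X H).filter (fun x => ∃ p : ℕ, p.Prime ∧ Y < p ∧
      (p : ℤ) ^ 2 ∣ x.1 + c * lam * x.2))
    (t := (Icc (1 : ℤ) ((15000 * N : ℕ) : ℤ)).filter
      (fun v => ∃ p : ℕ, p.Prime ∧ Y < p ∧ (p : ℤ) ^ 2 ∣ v))
    (f := fun x : ℤ × ℤ => x.1 + c * lam * x.2)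
    (by
      intro x hx
      rw [mem_filter, P, mem_filter, mem_product, mem_Icc, mem_Ioc] at hx
      obtain ⟨⟨⟨⟨h1, h2⟩, h3, h4⟩, -⟩, h5⟩ := hx
      rw [mem_filter, mem_Icc]
      have hlb : lam * x.2 ≤ 36 * (3 * N) := mul_le_mul (by omega) h4 (by omega) (by norm_num)
      have hlb0 : 0 ≤ lam * x.2 := mul_nonneg (by omega) (by omega)
      refine ⟨?_, h5⟩
      rw [mul_assoc]
      rcases hc with rfl | rfl | rfl <;> constructor <;> push_cast <;> nlinarith)
    (T + 1)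
    (by
      intro v _
      -- the fiber
      set Fb := ((P κ lam e N Y X H).filter (fun x => ∃ p : ℕ, p.Prime ∧ Y < p ∧
        (p : ℤ) ^ 2 ∣ x.1 + c * lam * x.2)).filter (fun x => x.1 + c * lam * x.2 = v) with hFb
      have hinj : Set.InjOn Prod.snd (Fb : Set (ℤ × ℤ)) := by
        intro x hx y hy hxy
        rw [mem_coe, hFb, mem_filter] at hx hy
        have e1 := hx.2
        have e2 := hy.2
        rw [← hxy] at e2
        ext
        · linarith
        · exact hxy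
      rw [← card_image_of_injOn hinj]
      rcases (Fb.image Prod.snd).eq_empty_or_nonempty with h0 | hne
      · rw [h0]; simp
      · set m := (Fb.image Prod.snd).min' hne with hm
        have hmm := min'_mem _ hne
        rw [← hm, mem_image] at hmm
        obtain ⟨y, hy, hym⟩ := hmm
        have hsub : Fb.image Prod.snd ⊆ Icc m (m + T) := by
          intro b hb
          have hmb : m ≤ b := min'_le _ _ hb
          rw [mem_image] at hb
          obtain ⟨x, hx, hxb⟩ := hb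
          rw [mem_Icc]
          refine ⟨hmb, ?_⟩
          rcases hmb.eq_or_lt with h0 | hlt
          · omega
          · rw [hFb, mem_filter, mem_filter, P, mem_filter, mem_product, mem_Icc, mem_Ioc]
              at hx hy
            obtain ⟨⟨⟨⟨⟨x1, x2⟩, x3, x4⟩, x5, x6, -⟩, -⟩, x7⟩ := hx
            obtain ⟨⟨⟨⟨⟨y1, y2⟩, y3, y4⟩, y5, y6, -⟩, -⟩, y7⟩ := hy
            have ex : x.1 = v - c * lam * b := by rw [← x7, hxb]; ring
            have ey : y.1 = v - c * lam * m := by rw [← y7, hym]; ring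
            rw [ex, hxb] at x6
            rw [ey, hym] at y5
            have h2 := comp (v := v) hκ hlam (by exact_mod_cast hN : (0 : ℤ) < N) hc
              (by rw [← hym]; exact y3) hlt (by rw [← hxb]; exact x4)
              (by rw [← ex]; exact x1)
            have h3 : ((10 ^ 10 * (N : ℤ) ^ 3 * (b - m) : ℤ) : ℝ) ≤
                (F κ lam (v - c * lam * b) b : ℝ) - (F κ lam (v - c * lam * m) m : ℝ) := by
              exact_mod_cast h2
            have h4 : ((10 ^ 10 * (N : ℤ) ^ 3 * (b - m) : ℤ) : ℝ) <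
                ((T : ℝ) + 1) * (10 ^ 10 * (N : ℝ) ^ 3) := by linarith
            have h5 : (10 : ℤ) ^ 10 * (N : ℤ) ^ 3 * (b - m) < (T + 1) * (10 ^ 10 * (N : ℤ) ^ 3) := by
              exact_mod_cast h4
            have h6 : (0 : ℤ) < 10 ^ 10 * (N : ℤ) ^ 3 := by positivity
            have h7 : b - m < T + 1 := by
              by_contra hcon
              push Not at hcon
              have := mul_le_mul_of_nonneg_left hcon h6.le
              linarith
            omega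
        have h8 := card_le_card hsub
        rw [Int.card_Icc] at h8
        omega)
  have h2 := card_V (15000 * N) Y hY
  have h3 : (((P κ lam e N Y X H).filter (fun x => ∃ p : ℕ, p.Prime ∧ Y < p ∧
      (p : ℤ) ^ 2 ∣ x.1 + c * lam * x.2)).card : ℝ) ≤ ((T : ℝ) + 1) *
      (((Icc (1 : ℤ) ((15000 * N : ℕ) : ℤ)).filter
        (fun v => ∃ p : ℕ, p.Prime ∧ Y < p ∧ (p : ℤ) ^ 2 ∣ v)).card : ℝ) := by
    exact_mod_cast h1
  refine h3.trans ?_
  apply mul_le_mul_of_nonneg_left _ (by positivity)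
  push_cast at h2 ⊢
  exact h2

end Pool.Agent.TH646.CA
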