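import Pool.Agent.TH646.CA.Cnt

set_option autoImplicit false

open Finset

namespace Pool.Agent.TH646.CA

open Pool.Agent.H661R3.OP (Rough)

/-- the numbers found -/
def S (j : ℤ) (Y : ℕ) (X H : ℝ) : Set ℕ :=
  {n : ℕ | X ≤ n ∧ (n : ℝ) ≤ X + H ∧ (n : ℤ) % 8 = j ∧ Squarefree n ∧ Cong n ∧
    ∀ p : ℕ, p.Prime → p ∣ n → p = 2 ∨ Y < p}

theorem S_finite (j : ℤ) (Y : ℕ) (X H : ℝ) : (S j Y X H).Finite := by
  refine (Set.finite_Iic ⌈X + H⌉₊).subset ?_
  rintro n ⟨-, h, -⟩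
  rw [Set.mem_Iic]
  exact_mod_cast h.trans (Nat.le_ceil _)

theorem card_div {n R : ℕ} (hn : Squarefree n) (h : n.primeFactors.card ≤ R) :
    n.divisors.card ≤ 2 ^ R := by
  rw [Nat.card_divisors hn.ne_zero]
  calc ∏ x ∈ n.primeFactors, (n.factorization x + 1) ≤ ∏ x ∈ n.primeFactors, 2 := by
        apply prod_le_prod' 
        intro p hp
        have := hn.natFactorization_le_one p
        omega
    _ = 2 ^ n.primeFactors.card := by rw [prod_const]
    _ ≤ 2 ^ R := Nat.pow_le_pow_right (by norm_num) h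

open Classical in
/-- good pairs give elements of `S` -/
theorem good {κ lam s e j : ℤ} (hfam : Fam κ lam s e j) {N Y : ℕ} (hN : 0 < N) (hY : 36 ≤ Y)
    (hYN : Y ≤ N) {X H : ℝ} {x : ℤ × ℤ} (hx : x ∈ P κ lam e N Y X H) (hD : ¬ x.2 ∣ x.1)
    (hQ : ∀ c : ℤ, c = 0 ∨ c = 1 ∨ c = -1 → ¬ ∃ p : ℕ, p.Prime ∧ Y < p ∧
      (p : ℤ) ^ 2 ∣ x.1 + c * lam * x.2) :
    0 < x.1 ∧ 0 < x.2 ∧ 0 < F κ lam x.1 x.2 ∧ (F κ lam x.1 x.2).toNat ∈ S j Y X H := by
  rw [P, mem_filter, mem_product, mem_Icc, mem_Ioc] at hx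
  obtain ⟨⟨⟨h1, h2⟩, h3, h4⟩, h5, h6, ⟨q, hq, hqx⟩, ⟨t, ht⟩, h7, h8, h9⟩ := hx
  have hN' : (0 : ℤ) < N := by exact_mod_cast hN
  have hx2 : 0 < x.2 := by omega
  have hx1 : 0 < x.1 := by omega
  have hl : lam * x.2 < x.1 := by
    have : lam * x.2 ≤ 36 * x.2 :=
      mul_le_mul_of_nonneg_right (by rcases hfam.lm with h | h <;> omega) hx2.le
    omega
  have hF : 0 < F κ lam x.1 x.2 := by
    unfold F
    have e1 : 0 < κ := by rcases hfam.kap with h | h <;> omega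
    have e2 : 0 < lam * x.2 := mul_pos (by rcases hfam.lm with h | h <;> omega) hx2
    have e3 : 0 < x.1 ^ 2 - lam ^ 2 * x.2 ^ 2 := by nlinarith
    positivity
  have hFn : ((F κ lam x.1 x.2).toNat : ℤ) = F κ lam x.1 x.2 := Int.toNat_of_nonneg hF.le
  have hFr : (((F κ lam x.1 x.2).toNat : ℕ) : ℝ) = ((F κ lam x.1 x.2 : ℤ) : ℝ) := by
    exact_mod_cast hFn
  have hqY : Y < q := by
    have : (Y : ℤ) < q := by rw [hqx]; omega
    exact_mod_cast this
  -- squares
  have hsq : ∀ c : ℤ, c = 0 ∨ c = 1 ∨ c = -1 → Rough Y (x.1 + c * lam * x.2) →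
      ∀ p : ℕ, p.Prime → ¬ (p : ℤ) ^ 2 ∣ x.1 + c * lam * x.2 := by
    intro c hc hr p hp hdvd
    have : Y < p := by
      by_contra hcon
      push Not at hcon
      exact hr p hp hcon ((dvd_pow_self _ two_ne_zero).trans hdvd)
    exact hQ c hc ⟨p, hp, this, hdvd⟩
  have s0 : ∀ p : ℕ, p.Prime → ¬ (p : ℤ) ^ 2 ∣ x.1 := by
    have := hsq 0 (by omega) (by simpa using h7)
    simpa using this
  have s1 : ∀ p : ℕ, p.Prime → ¬ (p : ℤ) ^ 2 ∣ x.1 - lam * x.2 := by
    have e1 : x.1 + (-1) * lam * x.2 = x.1 - lam * x.2 := by ring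
    have := hsq (-1) (by omega) (by rw [e1]; exact h8)
    rwa [e1] at this
  have s2 : ∀ p : ℕ, p.Prime → ¬ (p : ℤ) ^ 2 ∣ x.1 + lam * x.2 := by
    have e1 : x.1 + 1 * lam * x.2 = x.1 + lam * x.2 := by ring
    have := hsq 1 (by omega) (by rw [e1]; exact h9)
    rwa [e1] at this
  refine ⟨hx1, hx2, hF, ?_, ?_, ?_, ?_, ?_, ?_⟩
  · rw [hFr]; exact h5
  · rw [hFr]; exact h6
  · rw [hFn, ht]
    apply hfam.mod8
    have hodd : q % 2 = 1 := by
      rcases hq.eq_two_or_odd with h | h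
      · omega
      · exact h
    omega
  · rw [Nat.squarefree_iff_prime_squarefree]
    intro p hp hdvd
    have h10 : (p : ℤ) ^ 2 ∣ F κ lam x.1 x.2 := by
      rw [← hFn, sq]
      exact_mod_cast hdvd
    exact sqf hfam.kap hfam.lm hY hq hqx hqY hD h7 h8 h9 s0 s1 s2 p hp h10
  · exact cong hfam hx2 hl hFn
  · intro p hp hdvd
    have h10 : (p : ℤ) ∣ F κ lam x.1 x.2 := by
      rw [← hFn]
      exact_mod_cast hdvd
    exact pf hfam.kap hq hqx hqY h7 h8 h9 p hp h10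

open Classical in
theorem comb {κ lam s e j : ℤ} (hfam : Fam κ lam s e j) {N Y T : ℕ} (hN : 0 < N) (hY : 36 ≤ Y)
    (hYN : Y ≤ N) {X H : ℝ} (hTH : H < ((T : ℝ) + 1) * (10 ^ 10 * (N : ℝ) ^ 3)) (R : ℕ)
    (hR : ∀ n ∈ S j Y X H, n.primeFactors.card ≤ R) :
    ((P κ lam e N Y X H).card : ℝ) ≤ 28000 * N +
      3 * ((T + 1) * (15000 * N / Y + Real.sqrt (15000 * N))) +
      4 ^ R * ((S j Y X H).ncard : ℝ) := by
  set PP := P κ lam e N Y X H with hPP
  set D := PP.filter (fun x => x.2 ∣ x.1) with hD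
  set Q : ℤ → Finset (ℤ × ℤ) := fun c => PP.filter (fun x => ∃ p : ℕ, p.Prime ∧ Y < p ∧
      (p : ℤ) ^ 2 ∣ x.1 + c * lam * x.2) with hQ
  set G := PP.filter (fun x => ¬ x.2 ∣ x.1 ∧ ∀ c : ℤ, c = 0 ∨ c = 1 ∨ c = -1 →
    ¬ ∃ p : ℕ, p.Prime ∧ Y < p ∧ (p : ℤ) ^ 2 ∣ x.1 + c * lam * x.2) with hG
  have hcov : PP ⊆ ((D ∪ Q 0) ∪ (Q 1 ∪ Q (-1))) ∪ G := by
    intro x hx
    by_cases h1 : x ∈ (D ∪ Q 0) ∪ (Q 1 ∪ Q (-1))
    · exact mem_union_left _ h1
    · apply mem_union_right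
      rw [hG, mem_filter]
      refine ⟨hx, fun h => h1 ?_, fun c hc h => h1 ?_⟩
      · exact mem_union_left _ (mem_union_left _ (mem_filter.2 ⟨hx, h⟩))
      · rcases hc with rfl | rfl | rfl
        · exact mem_union_left _ (mem_union_right _ (mem_filter.2 ⟨hx, h⟩))
        · exact mem_union_right _ (mem_union_left _ (mem_filter.2 ⟨hx, h⟩))
        · exact mem_union_right _ (mem_union_right _ (mem_filter.2 ⟨hx, h⟩))
  have h1 : PP.card ≤ D.card + (Q 0).card + ((Q 1).card + (Q (-1)).card) + G.card :=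
    (card_le_card hcov).trans ((card_union_le _ _).trans (Nat.add_le_add_right
      ((card_union_le _ _).trans (Nat.add_le_add (card_union_le _ _) (card_union_le _ _))) _))
  have hGS : G.card ≤ 4 ^ R * (S_finite j Y X H).toFinset.card := by
    apply card_le_mul_card_image_of_maps_to
      (f := fun x : ℤ × ℤ => (F κ lam x.1 x.2).toNat)
    · intro x hx
      rw [hG, mem_filter] at hx
      rw [Set.Finite.mem_toFinset]
      exact (good hfam hN hY hYN hx.1 hx.2.1 hx.2.2).2.2.2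
    · intro n hn
      rw [Set.Finite.mem_toFinset] at hn
      have hsqn : Squarefree n := hn.2.2.2.1
      have hdiv := card_div hsqn (hR n hn)
      have hle : (G.filter (fun x : ℤ × ℤ => (F κ lam x.1 x.2).toNat = n)).card ≤
          (n.divisors ×ˢ n.divisors).card := by
        apply card_le_card_of_injOn (fun x : ℤ × ℤ => (x.1.toNat, x.2.toNat))
        · intro x hx
          rw [mem_coe, mem_filter, hG, mem_filter] at hx
          obtain ⟨⟨hxP, hx1, hx2⟩, hxn⟩ := hx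
          obtain ⟨g1, g2, g3, -⟩ := good hfam hN hY hYN hxP hx1 hx2
          have hFn : (n : ℤ) = F κ lam x.1 x.2 := by
            rw [← hxn]; exact Int.toNat_of_nonneg g3.le
          have d1 : x.1 ∣ (n : ℤ) := by
            rw [hFn]; unfold F
            exact ⟨κ * x.2 * (x.1 ^ 2 - lam ^ 2 * x.2 ^ 2), by ring⟩
          have d2 : x.2 ∣ (n : ℤ) := by
            rw [hFn]; unfold F
            exact ⟨κ * x.1 * (x.1 ^ 2 - lam ^ 2 * x.2 ^ 2), by ring⟩
          rw [mem_coe, mem_product, Nat.mem_divisors, Nat.mem_divisors]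
          refine ⟨⟨?_, hsqn.ne_zero⟩, ?_, hsqn.ne_zero⟩
          · have : ((x.1.toNat : ℕ) : ℤ) ∣ (n : ℤ) := by
              rw [Int.toNat_of_nonneg g1.le]; exact d1
            exact_mod_cast this
          · have : ((x.2.toNat : ℕ) : ℤ) ∣ (n : ℤ) := by
              rw [Int.toNat_of_nonneg g2.le]; exact d2
            exact_mod_cast this
        · intro x hx y hy hxy
          rw [mem_coe, mem_filter, hG, mem_filter] at hx hy
          obtain ⟨g1, g2, -, -⟩ := good hfam hN hY hYN hx.1.1 hx.1.2.1 hx.1.2.2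
          obtain ⟨k1, k2, -, -⟩ := good hfam hN hY hYN hy.1.1 hy.1.2.1 hy.1.2.2
          have e1 : x.1.toNat = y.1.toNat := congrArg Prod.fst hxy
          have e2 : x.2.toNat = y.2.toNat := congrArg Prod.snd hxy
          ext
          · omega
          · omega
      refine hle.trans ?_
      rw [card_product]
      calc n.divisors.card * n.divisors.card ≤ 2 ^ R * 2 ^ R := Nat.mul_le_mul hdiv hdiv
        _ = 4 ^ R := by rw [← mul_pow]; norm_num
  have hS : (S_finite j Y X H).toFinset.card = (S j Y X H).ncard :=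
    (Set.ncard_eq_toFinset_card _ _).symm
  rw [hS] at hGS
  have hDc : (D.card : ℝ) ≤ 28000 * N := by
    have := card_D κ lam e N Y X H
    convert this
  have hQc : ∀ c : ℤ, c = 0 ∨ c = 1 ∨ c = -1 →
      ((Q c).card : ℝ) ≤ (T + 1) * (15000 * N / Y + Real.sqrt (15000 * N)) := by
    intro c hc
    have := card_Q (e := e) hfam.kap hfam.lm hc N Y T hN (by omega) X H hTH
    convert this
  have h2 : (PP.card : ℝ) ≤ D.card + (Q 0).card + ((Q 1).card + (Q (-1)).card) + G.card := by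
    exact_mod_cast h1
  have h3 : (G.card : ℝ) ≤ 4 ^ R * ((S j Y X H).ncard : ℝ) := by exact_mod_cast hGS
  have q0 := hQc 0 (by omega)
  have q1 := hQc 1 (by omega)
  have q2 := hQc (-1) (by omega)
  linarith

end Pool.Agent.TH646.CA
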