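import Pool.Agent.TH646.CA.Alg
import Pool.Agent.H661R3.SQ.SVQ

set_option autoImplicit false

open Finset

namespace Pool.Agent.TH646.CA

open Pool.Agent.H661R3.OP (Rough)

theorem F_mono {κ lam b a a' : ℤ} (hκ : κ = 1 ∨ κ = 2) (hlam : lam = 36 ∨ lam = 18) (hb : 0 < b)
    (h : 36 * b ≤ a) (haa : a ≤ a') : F κ lam a b ≤ F κ lam a' b := by
  have h1 : F κ lam a' b - F κ lam a b =
      κ * b * (a' - a) * (a' ^ 2 + a' * a + (a ^ 2 - lam ^ 2 * b ^ 2)) := by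
    unfold F; ring
  have h2 : 0 ≤ a ^ 2 - lam ^ 2 * b ^ 2 := by
    have : (lam * b) ^ 2 ≤ a ^ 2 := by
      apply pow_le_pow_left₀
      · rcases hlam with rfl | rfl <;> positivity
      · rcases hlam with rfl | rfl <;> linarith
    rw [mul_pow] at this
    linarith
  have ha : 0 ≤ a := by linarith
  have ha' : 0 ≤ a' := ha.trans haa
  have h3 : 0 ≤ a' ^ 2 + a' * a + (a ^ 2 - lam ^ 2 * b ^ 2) := by positivity
  have h4 : 0 ≤ κ * b * (a' - a) := by
    have : 0 ≤ a' - a := by linarith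
    rcases hκ with rfl | rfl <;> positivity
  have := mul_nonneg h4 h3
  linarith

theorem F_step {κ lam b a s N : ℤ} (hκ : κ = 1 ∨ κ = 2) (hb : 0 < b) (hbN : b ≤ 3 * N)
    (ha : 0 ≤ a) (hs : 0 ≤ s) (has : a + s ≤ 14000 * N) :
    F κ lam (a + s) b - F κ lam a b ≤ 10 ^ 10 * N ^ 3 * s := by
  have hN : 0 ≤ N := by linarith
  have h1 : F κ lam (a + s) b - F κ lam a b =
      s * (κ * (b * ((a + s) ^ 2 + (a + s) * a + a ^ 2 - lam ^ 2 * b ^ 2))) := by
    unfold F; ring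
  have h2 : (a + s) ^ 2 + (a + s) * a + a ^ 2 - lam ^ 2 * b ^ 2 ≤ 3 * (14000 * N) ^ 2 := by
    have e1 : (a + s) ^ 2 ≤ (14000 * N) ^ 2 := pow_le_pow_left₀ (by linarith) has 2
    have e2 : (a + s) * a ≤ (14000 * N) * (14000 * N) :=
      mul_le_mul has (by linarith) ha (by linarith)
    have e3 : a ^ 2 ≤ (14000 * N) ^ 2 := pow_le_pow_left₀ ha (by linarith) 2
    have e4 : 0 ≤ lam ^ 2 * b ^ 2 := by positivity
    nlinarith
  have h3 : b * ((a + s) ^ 2 + (a + s) * a + a ^ 2 - lam ^ 2 * b ^ 2) ≤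
      b * (3 * (14000 * N) ^ 2) := mul_le_mul_of_nonneg_left h2 hb.le
  have h4 : b * (3 * (14000 * N) ^ 2) ≤ (3 * N) * (3 * (14000 * N) ^ 2) :=
    mul_le_mul_of_nonneg_right hbN (by positivity)
  have h5 : κ * (b * ((a + s) ^ 2 + (a + s) * a + a ^ 2 - lam ^ 2 * b ^ 2)) ≤
      10 ^ 10 * N ^ 3 := by
    have hN3 : 0 ≤ N ^ 3 := by positivity
    rcases hκ with rfl | rfl <;> nlinarith
  rw [h1]
  calc s * (κ * (b * ((a + s) ^ 2 + (a + s) * a + a ^ 2 - lam ^ 2 * b ^ 2)))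
      ≤ s * (10 ^ 10 * N ^ 3) := mul_le_mul_of_nonneg_left h5 hs
    _ = 10 ^ 10 * N ^ 3 * s := by ring

/-- the start of the window of `b` -/
theorem start {κ lam b N : ℤ} (hκ : κ = 1 ∨ κ = 2) (hlam : lam = 36 ∨ lam = 18) (hN : 0 < N)
    (hb : N < b) (hbN : b ≤ 3 * N) {X : ℝ} (hX1 : (10 : ℝ) ^ 12 * (N : ℝ) ^ 4 ≤ X)
    (hX2 : X ≤ 1004006004001 * (N : ℝ) ^ 4) :
    ∃ a₀ : ℤ, 4000 * N < a₀ ∧ a₀ ≤ 13000 * N ∧ (F κ lam (a₀ - 1) b : ℝ) < X ∧
      X ≤ (F κ lam a₀ b : ℝ) := by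
  classical
  have hN4 : (0 : ℝ) < (N : ℝ) ^ 4 := by
    have : (0 : ℝ) < N := by exact_mod_cast hN
    positivity
  -- the upper end
  have hup : X ≤ (F κ lam (13000 * N) b : ℝ) := by
    have h1 : (1004006004001 : ℤ) * N ^ 4 ≤ F κ lam (13000 * N) b := by
      have e1 : F κ lam (13000 * N) b =
          κ * (13000 * N * (b * ((13000 * N) ^ 2 - lam ^ 2 * b ^ 2))) := by unfold F; ring
      have e2 : lam ^ 2 * b ^ 2 ≤ 36 ^ 2 * (3 * N) ^ 2 := by
        have : b ^ 2 ≤ (3 * N) ^ 2 := pow_le_pow_left₀ (by linarith) hbN 2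
        rcases hlam with rfl | rfl <;> nlinarith
      have e3 : 160000000 * N ^ 2 ≤ (13000 * N) ^ 2 - lam ^ 2 * b ^ 2 := by nlinarith
      have e4 : N * (160000000 * N ^ 2) ≤ b * ((13000 * N) ^ 2 - lam ^ 2 * b ^ 2) :=
        mul_le_mul hb.le e3 (by positivity) (by linarith)
      have e5 : 13000 * N * (N * (160000000 * N ^ 2)) ≤
          13000 * N * (b * ((13000 * N) ^ 2 - lam ^ 2 * b ^ 2)) :=
        mul_le_mul_of_nonneg_left e4 (by positivity)
      have e6 : (0 : ℤ) ≤ N ^ 4 := by positivity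
      have e7 : 13000 * N * (N * (160000000 * N ^ 2)) = 2080000000000 * N ^ 4 := by ring
      rw [e1]
      rw [e7] at e5
      rcases hκ with rfl | rfl <;> nlinarith
    have h2 : ((1004006004001 : ℤ) * N ^ 4 : ℝ) ≤ (F κ lam (13000 * N) b : ℝ) := by
      exact_mod_cast h1
    push_cast at h2
    linarith
  have hex : ∃ k : ℕ, X ≤ (F κ lam (4000 * N + k) b : ℝ) := by
    refine ⟨(9000 * N).toNat, ?_⟩
    have : (4000 * N + ((9000 * N).toNat : ℤ)) = 13000 * N := by omega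
    rw [this]
    exact hup
  have hk9 : Nat.find hex ≤ (9000 * N).toNat := Nat.find_min' hex (by
    have : (4000 * N + ((9000 * N).toNat : ℤ)) = 13000 * N := by omega
    rw [this]
    exact hup)
  have hk0 : Nat.find hex ≠ 0 := by
    intro h0
    have h1 := Nat.find_spec hex
    rw [h0] at h1
    have h2 : F κ lam (4000 * N + ((0 : ℕ) : ℤ)) b ≤ 400000000000 * N ^ 4 := by
      have e1 : F κ lam (4000 * N + ((0 : ℕ) : ℤ)) b =
          κ * (4000 * N * (b * ((4000 * N) ^ 2 - lam ^ 2 * b ^ 2))) := by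
        unfold F; push_cast; ring
      have e2 : 0 ≤ lam ^ 2 * b ^ 2 := by positivity
      have e3 : (4000 * N) ^ 2 - lam ^ 2 * b ^ 2 ≤ 16000000 * N ^ 2 := by nlinarith
      have e4 : b * ((4000 * N) ^ 2 - lam ^ 2 * b ^ 2) ≤ (3 * N) * (16000000 * N ^ 2) :=
        (mul_le_mul_of_nonneg_left e3 (by linarith)).trans
          (mul_le_mul_of_nonneg_right hbN (by positivity))
      have e5 : 4000 * N * (b * ((4000 * N) ^ 2 - lam ^ 2 * b ^ 2)) ≤
          4000 * N * ((3 * N) * (16000000 * N ^ 2)) :=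
        mul_le_mul_of_nonneg_left e4 (by positivity)
      have e6 : (0 : ℤ) ≤ N ^ 4 := by positivity
      have e7 : 4000 * N * ((3 * N) * (16000000 * N ^ 2)) = 192000000000 * N ^ 4 := by ring
      rw [e1]
      rw [e7] at e5
      rcases hκ with rfl | rfl <;> nlinarith
    have h3 : (F κ lam (4000 * N + ((0 : ℕ) : ℤ)) b : ℝ) ≤ ((400000000000 * N ^ 4 : ℤ) : ℝ) := by
      exact_mod_cast h2
    push_cast at h3
    push_cast at h1
    nlinarith
  refine ⟨4000 * N + (Nat.find hex : ℕ), by omega, by omega, ?_, Nat.find_spec hex⟩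
  have h5 := Nat.find_min hex (m := Nat.find hex - 1) (by omega)
  push Not at h5
  have h6 : (4000 * N + (Nat.find hex : ℕ) - 1 : ℤ) = 4000 * N + ((Nat.find hex - 1 : ℕ) : ℤ) := by
    omega
  rw [h6]
  exact h5

/-- the window -/
theorem window {κ lam b N : ℤ} (hκ : κ = 1 ∨ κ = 2) (hlam : lam = 36 ∨ lam = 18) (hN : 0 < N)
    (hb : N < b) (hbN : b ≤ 3 * N) {X H : ℝ} (hX1 : (10 : ℝ) ^ 12 * (N : ℝ) ^ 4 ≤ X)
    (hX2 : X ≤ 1004006004001 * (N : ℝ) ^ 4) {T : ℕ} (hT : (T : ℝ) * (10 ^ 10 * (N : ℝ) ^ 3) ≤ H)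
    (hTN : (T : ℤ) ≤ 1000 * N) :
    ∃ a₀ : ℤ, 4000 * N < a₀ ∧ ∀ a : ℤ, a₀ ≤ a → a < a₀ + T → a ≤ 14000 * N ∧
      X ≤ (F κ lam a b : ℝ) ∧ (F κ lam a b : ℝ) ≤ X + H := by
  obtain ⟨a₀, h1, h2, h3, h4⟩ := start hκ hlam hN hb hbN hX1 hX2
  refine ⟨a₀, h1, fun a ha1 ha2 => ⟨by omega, ?_, ?_⟩⟩
  · refine h4.trans ?_
    exact_mod_cast F_mono hκ hlam (by omega) (by omega) ha1
  · have h5 := F_step (lam := lam) (s := a - (a₀ - 1)) hκ (by omega : 0 < b) hbN
      (by omega : 0 ≤ a₀ - 1) (by omega) (by omega)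
    rw [show a₀ - 1 + (a - (a₀ - 1)) = a by ring] at h5
    have h6 : (F κ lam a b : ℝ) - (F κ lam (a₀ - 1) b : ℝ) ≤
        ((10 ^ 10 * N ^ 3 * (a - (a₀ - 1)) : ℤ) : ℝ) := by exact_mod_cast h5
    have h7 : ((10 ^ 10 * N ^ 3 * (a - (a₀ - 1)) : ℤ) : ℝ) ≤ (10 ^ 10 * (N : ℝ) ^ 3) * T := by
      have h8 : (10 : ℤ) ^ 10 * N ^ 3 * (a - (a₀ - 1)) ≤ 10 ^ 10 * N ^ 3 * T :=
        mul_le_mul_of_nonneg_left (by omega) (by positivity)
      exact_mod_cast h8
    linarith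

/-- completions of a linear form: the value of the quartic form moves with `b` -/
theorem comp {κ lam N c v b b' : ℤ} (hκ : κ = 1 ∨ κ = 2) (hlam : lam = 36 ∨ lam = 18)
    (hN : 0 < N) (hc : c = 0 ∨ c = 1 ∨ c = -1) (hb : N < b) (hbb : b < b') (hbN : b' ≤ 3 * N)
    (hv : 4000 * N ≤ v - c * lam * b') :
    10 ^ 10 * N ^ 3 * (b' - b) ≤
      F κ lam (v - c * lam * b') b' - F κ lam (v - c * lam * b) b := by
  have hlam0 : 0 ≤ lam := by omega
  have hlam36 : lam ≤ 36 := by omega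
  obtain ⟨Bk, hBk, hBk2, hvN⟩ : ∃ Bk : ℤ, F κ lam (v - c * lam * b') b' -
      F κ lam (v - c * lam * b) b = κ * ((b' - b) * (v * Bk)) ∧ 10000000 * N ^ 2 ≤ Bk ∧
      1000 * N ≤ v := by
    have hlb : lam * b' ≤ 36 * (3 * N) := mul_le_mul hlam36 hbN (by omega) (by norm_num)
    have hlb0 : 0 ≤ lam * b' := mul_nonneg hlam0 (by omega)
    rcases hc with rfl | rfl | rfl
    · refine ⟨v ^ 2 - lam ^ 2 * (b' ^ 2 + b' * b + b ^ 2), by unfold F; ring, ?_, by linarith⟩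
      have e1 : (4000 * N) ^ 2 ≤ v ^ 2 := pow_le_pow_left₀ (by positivity) (by linarith) 2
      have e2 : b' ^ 2 ≤ (3 * N) ^ 2 := pow_le_pow_left₀ (by omega) hbN 2
      have e3 : b' * b ≤ (3 * N) * (3 * N) := mul_le_mul hbN (by omega) (by omega) (by omega)
      have e4 : b ^ 2 ≤ (3 * N) ^ 2 := pow_le_pow_left₀ (by omega) (by omega) 2
      have e5 : lam ^ 2 * (b' ^ 2 + b' * b + b ^ 2) ≤ 36 ^ 2 * (27 * N ^ 2) :=
        mul_le_mul (pow_le_pow_left₀ hlam0 hlam36 2) (by nlinarith)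
          (by have : 0 ≤ b' * b := mul_nonneg (by omega) (by omega)
              positivity) (by norm_num)
      nlinarith
    · refine ⟨v ^ 2 - 3 * lam * v * (b + b') + 2 * lam ^ 2 * (b' ^ 2 + b' * b + b ^ 2),
        by unfold F; ring, ?_, by linarith⟩
      have hv4 : 4000 * N ≤ v := by linarith
      have e0 : 0 ≤ b' * b := mul_nonneg (by omega) (by omega)
      have e1 : 0 ≤ 2 * lam ^ 2 * (b' ^ 2 + b' * b + b ^ 2) := by positivity
      have e2 : 3 * lam * (b + b') ≤ 3 * 36 * (6 * N) :=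
        mul_le_mul (by linarith) (by linarith) (by linarith) (by norm_num)
      have e3 : 3 * lam * v * (b + b') ≤ 648 * N * v := by
        have := mul_le_mul_of_nonneg_right e2 (by linarith : 0 ≤ v)
        nlinarith
      have e4 : (4000 * N) * (3352 * N) ≤ v * (v - 648 * N) :=
        mul_le_mul hv4 (by linarith) (by positivity) (by linarith)
      nlinarith
    · refine ⟨v ^ 2 + 3 * lam * v * (b + b') + 2 * lam ^ 2 * (b' ^ 2 + b' * b + b ^ 2),
        by unfold F; ring, ?_, by linarith⟩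
      have hv4 : 3892 * N ≤ v := by linarith
      have e0 : 0 ≤ b' * b := mul_nonneg (by omega) (by omega)
      have e1 : 0 ≤ 2 * lam ^ 2 * (b' ^ 2 + b' * b + b ^ 2) := by positivity
      have e2 : 0 ≤ 3 * lam * v * (b + b') := by
        have : 0 ≤ v := by linarith
        have : 0 ≤ b + b' := by linarith
        positivity
      have e3 : (3892 * N) ^ 2 ≤ v ^ 2 := pow_le_pow_left₀ (by positivity) hv4 2
      nlinarith
  have h1 : (1000 * N) * (10000000 * N ^ 2) ≤ v * Bk :=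
    mul_le_mul hvN hBk2 (by positivity) (by linarith)
  have h2 : (b' - b) * ((1000 * N) * (10000000 * N ^ 2)) ≤ (b' - b) * (v * Bk) :=
    mul_le_mul_of_nonneg_left h1 (by linarith)
  have h3 : (b' - b) * ((1000 * N) * (10000000 * N ^ 2)) = 10 ^ 10 * N ^ 3 * (b' - b) := by ring
  have h4 : 0 ≤ 10 ^ 10 * N ^ 3 * (b' - b) := by
    have : 0 ≤ b' - b := by linarith
    positivity
  rw [hBk]
  rcases hκ with rfl | rfl <;> linarith

end Pool.Agent.TH646.CA
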